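import Pool.Agent.Helper501.Bpa.Transfer

namespace Pool.Agent.Helper501.Bpa

open Relation Term

section Bridge

variable {A : Type*}

/-- the term of a stack -/
def foldT : List (Term A) → Option (Term A)
  | [] => none
  | t :: R => some (R.foldl seq t)

theorem foldT_append (w : List (Term A)) (t : Term A) :
    foldT (w ++ [t]) = some (match foldT w with | none => t | some p => seq p t) := by
  cases w with
  | nil => rfl
  | cons u R => simp [foldT, List.foldl_append]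

theorem foldT_eq_none {w : List (Term A)} : foldT w = none ↔ w = [] := by
  cases w with
  | nil => simp [foldT]
  | cons u R => simp [foldT]

theorem tr_iff {t : Term A} {a : A} {o : Option (Term A)} : Tr t a o ↔ ∃ w, St t a w ∧ o = foldT w := by
  constructor
  · intro h
    induction h with
    | atom a => exact ⟨[], ⟨rfl, rfl⟩, rfl⟩
    | plus_left _ ih => obtain ⟨w, h1, h2⟩ := ih; exact ⟨w, Or.inl h1, h2⟩
    | plus_right _ ih => obtain ⟨w, h1, h2⟩ := ih; exact ⟨w, Or.inr h1, h2⟩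
    | @seq_step p p' q a _ ih =>
      obtain ⟨w, h1, h2⟩ := ih
      refine ⟨w ++ [q], ⟨w, h1, rfl⟩, ?_⟩
      rw [foldT_append, ← h2]
    | @seq_done p q a _ ih =>
      obtain ⟨w, h1, h2⟩ := ih
      refine ⟨w ++ [q], ⟨w, h1, rfl⟩, ?_⟩
      rw [foldT_append, ← h2]
    | kstar _ ih =>
      obtain ⟨w, h1, h2⟩ := ih
      exact ⟨w, h1, h2⟩
  · rintro ⟨w, h1, rfl⟩
    induction t generalizing w with
    | atom b => obtain ⟨rfl, rfl⟩ := h1; exact Tr.atom _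
    | dead => exact absurd h1 (by simp [St])
    | plus s t ihs iht =>
      rcases h1 with h1 | h1
      · exact Tr.plus_left (ihs w h1)
      · exact Tr.plus_right (iht w h1)
    | seq s t ihs iht =>
      obtain ⟨v, h1, rfl⟩ := h1
      have h2 := ihs v h1
      rw [foldT_append]
      cases hv : foldT v with
      | none => rw [hv] at h2; exact Tr.seq_done h2
      | some p => rw [hv] at h2; exact Tr.seq_step h2
    | kstar s t ihs iht =>
      refine Tr.kstar ?_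
      rcases h1 with ⟨v, h1, rfl⟩ | h1
      · refine Tr.plus_left ?_
        have h2 := ihs v h1
        rw [foldT_append]
        cases hv : foldT v with
        | none => rw [hv] at h2; exact Tr.seq_done h2
        | some p => rw [hv] at h2; exact Tr.seq_step h2
      · exact Tr.plus_right (iht w h1)

theorem tr_seq {p q : Term A} {a : A} {o : Option (Term A)} :
    Tr (seq p q) a o ↔ (∃ p', Tr p a (some p') ∧ o = some (seq p' q)) ∨ (Tr p a none ∧ o = some q) := by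
  constructor
  · intro h
    cases h with
    | seq_step h => exact Or.inl ⟨_, h, rfl⟩
    | seq_done h => exact Or.inr ⟨h, rfl⟩
  · rintro (⟨p', h, rfl⟩ | ⟨h, rfl⟩)
    · exact Tr.seq_step h
    · exact Tr.seq_done h

theorem tr_foldl {t : Term A} {R : List (Term A)} {a : A} {o : Option (Term A)} :
    Tr (R.foldl seq t) a o ↔ ∃ w, St t a w ∧ o = foldT (w ++ R) := by
  induction R using List.reverseRecOn generalizing o with
  | nil => simpa using tr_iff
  | append_singleton R r ih =>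
    rw [List.foldl_append, List.foldl_cons, List.foldl_nil, tr_seq]
    constructor
    · rintro (⟨p', h, rfl⟩ | ⟨h, rfl⟩)
      · obtain ⟨w, h1, h2⟩ := ih.1 h
        refine ⟨w, h1, ?_⟩
        rw [← List.append_assoc, foldT_append, ← h2]
      · obtain ⟨w, h1, h2⟩ := ih.1 h
        refine ⟨w, h1, ?_⟩
        rw [← List.append_assoc, foldT_append, ← h2]
    · rintro ⟨w, h1, rfl⟩
      rw [← List.append_assoc, foldT_append]
      have h2 := ih.2 ⟨w, h1, rfl⟩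
      cases hv : foldT (w ++ R) with
      | none => rw [hv] at h2; exact Or.inr ⟨h2, rfl⟩
      | some p => rw [hv] at h2; exact Or.inl ⟨p, h2, rfl⟩

theorem tr_fold {D : List (Term A)} {p : Term A} (hD : foldT D = some p) {a : A} {o : Option (Term A)} :
    Tr p a o ↔ ∃ D', Cf D a D' ∧ o = foldT D' := by
  cases D with
  | nil => exact absurd hD (by simp [foldT])
  | cons t R =>
    have : p = R.foldl seq t := by simpa [foldT] using hD.symm
    subst this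
    rw [tr_foldl]
    constructor
    · rintro ⟨w, h1, h2⟩
      exact ⟨w ++ R, ⟨w, h1, rfl⟩, h2⟩
    · rintro ⟨_, ⟨w, h1, rfl⟩, h2⟩
      exact ⟨w, h1, h2⟩

theorem lb_of_bisim {p q : Term A} (h : Bisim p q) : LB [p] [q] := by
  obtain ⟨R, hR, h⟩ := h
  refine ⟨fun D D' => (D = [] ∧ D' = []) ∨ ∃ p q, foldT D = some p ∧ foldT D' = some q ∧ R p q,
    ⟨?_, ?_, ?_⟩, Or.inr ⟨p, q, rfl, rfl, h⟩⟩
  · rintro D D' (⟨rfl, rfl⟩ | ⟨p, q, h1, h2, _⟩)
    · simp
    · constructor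
      · rintro rfl; exact absurd h1 (by simp [foldT])
      · rintro rfl; exact absurd h2 (by simp [foldT])
  · rintro D D' a D1 (⟨rfl, rfl⟩ | ⟨p, q, h1, h2, h3⟩) hc
    · exact absurd hc (by simp [Cf])
    · have h4 : Tr p a (foldT D1) := (tr_fold h1).2 ⟨D1, hc, rfl⟩
      cases hv : foldT D1 with
      | none =>
        rw [hv] at h4
        obtain ⟨D1', h5, h6⟩ := (tr_fold h2).1 (hR.done _ _ _ h3 h4)
        exact ⟨D1', h5, Or.inl ⟨foldT_eq_none.1 hv, foldT_eq_none.1 h6.symm⟩⟩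
      | some p' =>
        rw [hv] at h4
        obtain ⟨q', h5, h6⟩ := hR.step _ _ _ _ h3 h4
        obtain ⟨D1', h7, h8⟩ := (tr_fold h2).1 h5
        exact ⟨D1', h7, Or.inr ⟨p', q', rfl, h8.symm, h6⟩⟩
  · rintro D D' a D1 (⟨rfl, rfl⟩ | ⟨p, q, h1, h2, h3⟩) hc
    · exact absurd hc (by simp [Cf])
    · have h3' := hR.symm _ _ h3
      have h4 : Tr q a (foldT D1) := (tr_fold h2).2 ⟨D1, hc, rfl⟩
      cases hv : foldT D1 with
      | none =>
        rw [hv] at h4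
        obtain ⟨D1', h5, h6⟩ := (tr_fold h1).1 (hR.done _ _ _ h3' h4)
        exact ⟨D1', h5, Or.inl ⟨foldT_eq_none.1 h6.symm, foldT_eq_none.1 hv⟩⟩
      | some p' =>
        rw [hv] at h4
        obtain ⟨q', h5, h6⟩ := hR.step _ _ _ _ h3' h4
        obtain ⟨D1', h7, h8⟩ := (tr_fold h1).1 h5
        exact ⟨D1', h7, Or.inr ⟨q', p', h8.symm, rfl, hR.symm _ _ h6⟩⟩

theorem bisim_of_lb {p q : Term A} (h : LB [p] [q]) : Bisim p q := by
  refine ⟨fun p q => ∃ D D', foldT D = some p ∧ foldT D' = some q ∧ LB D D', ⟨?_, ?_, ?_⟩, [p], [q], rfl, rfl, h⟩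
  · rintro p q ⟨D, D', h1, h2, h3⟩
    exact ⟨D', D, h2, h1, h3.symm⟩
  · rintro p q a p' ⟨D, D', h1, h2, h3⟩ hp
    obtain ⟨D1, h4, h5⟩ := (tr_fold h1).1 hp
    obtain ⟨D1', h6, h7⟩ := h3.fwd h4
    have hne : D1' ≠ [] := by
      intro h
      rw [h7.nil_iff.2 h] at h5
      exact absurd h5 (by simp [foldT])
    cases hv : foldT D1' with
    | none => exact absurd (foldT_eq_none.1 hv) hne
    | some q' => exact ⟨q', (tr_fold h2).2 ⟨D1', h6, hv.symm⟩, D1, D1', h5.symm, hv, h7⟩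
  · rintro p q a ⟨D, D', h1, h2, h3⟩ hp
    obtain ⟨D1, h4, h5⟩ := (tr_fold h1).1 hp
    obtain ⟨D1', h6, h7⟩ := h3.fwd h4
    have h8 := h7.nil_iff.1 (foldT_eq_none.1 h5.symm)
    exact (tr_fold h2).2 ⟨D1', h6, by rw [h8]; rfl⟩

end Bridge

section Comb

variable {A : Type*}

theorem st_comb {X Y : Term A} {j : ℕ} {a : A} {v : List (Term A)} : St (comb X Y j) a v ↔
    St X a v ∨ (j = 0 ∧ St Y a v) ∨ ∃ j', j = j' + 1 ∧ ∃ v1, St Y a v1 ∧ v = v1 ++ [comb X Y j'] := by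
  cases j with
  | zero => simp [comb, St]
  | succ j =>
    simp only [comb, St]
    constructor
    · rintro (h | h)
      · exact Or.inl h
      · exact Or.inr (Or.inr ⟨j, rfl, h⟩)
    · rintro (h | ⟨h, _⟩ | ⟨j', h, h1⟩)
      · exact Or.inl h
      · exact absurd h (by omega)
      · obtain rfl : j = j' := by omega
        exact Or.inr h1

theorem comb_valid (X Y : Term A) (K : ℕ) : LB [kstar (comb X Y K) dead] [kstar (plus X Y) dead] := by
  refine ⟨fun D D' => ∃ w, D' = w ++ [kstar (plus X Y) dead] ∧ (D = w ++ [kstar (comb X Y K) dead] ∨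
    ∃ j, D = w ++ [comb X Y j, kstar (comb X Y K) dead]), ⟨?_, ?_, ?_⟩, [], rfl, Or.inl rfl⟩
  · rintro D D' ⟨w, rfl, rfl | ⟨j, rfl⟩⟩ <;> simp
  · rintro D D' a D1 ⟨w, rfl, h⟩ hc
    cases w with
    | cons t R =>
      rcases h with rfl | ⟨j, rfl⟩
      · obtain ⟨w, hw, rfl⟩ := hc
        exact ⟨_, ⟨w, hw, rfl⟩, w ++ R, by simp, Or.inl (by simp)⟩
      · obtain ⟨w, hw, rfl⟩ := hc
        exact ⟨_, ⟨w, hw, rfl⟩, w ++ R, by simp, Or.inr ⟨j, by simp⟩⟩
    | nil =>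
      rcases h with rfl | ⟨j, rfl⟩
      · obtain ⟨w, ⟨v, hv, rfl⟩ | hv, rfl⟩ := hc
        · rcases st_comb.1 hv with h1 | ⟨_, h1⟩ | ⟨j', _, v1, h1, rfl⟩
          · exact ⟨v ++ [kstar (plus X Y) dead], ⟨_, Or.inl ⟨v, Or.inl h1, rfl⟩, by simp⟩, v, rfl, Or.inl (by simp)⟩
          · exact ⟨v ++ [kstar (plus X Y) dead], ⟨_, Or.inl ⟨v, Or.inr h1, rfl⟩, by simp⟩, v, rfl, Or.inl (by simp)⟩
          · exact ⟨v1 ++ [kstar (plus X Y) dead], ⟨_, Or.inl ⟨v1, Or.inr h1, rfl⟩, by simp⟩, v1, rfl,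
              Or.inr ⟨j', by simp⟩⟩
        · exact absurd hv (by simp [St])
      · obtain ⟨v, hv, rfl⟩ := hc
        rcases st_comb.1 hv with h1 | ⟨_, h1⟩ | ⟨j', _, v1, h1, rfl⟩
        · exact ⟨v ++ [kstar (plus X Y) dead], ⟨_, Or.inl ⟨v, Or.inl h1, rfl⟩, by simp⟩, v, rfl, Or.inl rfl⟩
        · exact ⟨v ++ [kstar (plus X Y) dead], ⟨_, Or.inl ⟨v, Or.inr h1, rfl⟩, by simp⟩, v, rfl, Or.inl rfl⟩
        · exact ⟨v1 ++ [kstar (plus X Y) dead], ⟨_, Or.inl ⟨v1, Or.inr h1, rfl⟩, by simp⟩, v1, rfl,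
            Or.inr ⟨j', by simp⟩⟩
  · rintro D D' a D1 ⟨w, rfl, h⟩ hc
    cases w with
    | cons t R =>
      obtain ⟨w, hw, rfl⟩ := hc
      rcases h with rfl | ⟨j, rfl⟩
      · exact ⟨_, ⟨w, hw, rfl⟩, w ++ R, by simp, Or.inl (by simp)⟩
      · exact ⟨_, ⟨w, hw, rfl⟩, w ++ R, by simp, Or.inr ⟨j, by simp⟩⟩
    | nil =>
      obtain ⟨w, ⟨v, hv, rfl⟩ | hv, rfl⟩ := hc
      · have key : ∀ j, ∃ v', St (comb X Y j) a v' ∧ (v' = v ∨ ∃ j', v' = v ++ [comb X Y j']) := by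
          intro j
          rcases hv with hv | hv
          · exact ⟨v, st_comb.2 (Or.inl hv), Or.inl rfl⟩
          · cases j with
            | zero => exact ⟨v, st_comb.2 (Or.inr (Or.inl ⟨rfl, hv⟩)), Or.inl rfl⟩
            | succ j => exact ⟨_, st_comb.2 (Or.inr (Or.inr ⟨j, rfl, v, hv, rfl⟩)), Or.inr ⟨j, rfl⟩⟩
        rcases h with rfl | ⟨j, rfl⟩
        · obtain ⟨v', h1, h2⟩ := key K
          refine ⟨_, ⟨_, Or.inl ⟨v', h1, rfl⟩, rfl⟩, v, by simp, ?_⟩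
          rcases h2 with rfl | ⟨j', rfl⟩
          · exact Or.inl (by simp)
          · exact Or.inr ⟨j', by simp⟩
        · obtain ⟨v', h1, h2⟩ := key j
          refine ⟨_, ⟨v', h1, rfl⟩, v, by simp, ?_⟩
          rcases h2 with rfl | ⟨j', rfl⟩
          · exact Or.inl rfl
          · exact Or.inr ⟨j', by simp⟩
      · exact absurd hv (by simp [St])

theorem inst_comb {L M : Type*} (σ : L → Term M) (X Y : Term L) (k : ℕ) :
    inst σ (comb X Y k) = comb (inst σ X) (inst σ Y) k := by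
  induction k with
  | zero => rfl
  | succ k ih => simp only [comb, inst, ih]

end Comb

end Pool.Agent.Helper501.Bpa

namespace Pool.Agent.Helper501.Bpa

open Relation Term

section Finite

variable {L : Type*} {live : L → Prop}

theorem finite_reach (t : Term L) : {D | LR live [t] D}.Finite := by
  induction t with
  | atom a =>
    refine (Set.toFinite {[atom a], []}).subset ?_
    intro D hD
    rcases lr_cases hD with rfl | hD
    · simp
    · obtain ⟨E, ⟨z, _, h3⟩, h4⟩ := plr_iff.1 hD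
      rw [cf_single] at h3
      rw [h3.2] at h4
      rw [lr_nil h4]
      simp
  | dead =>
    refine (Set.toFinite {[dead]}).subset ?_
    intro D hD
    rcases lr_cases hD with rfl | hD
    · simp
    · obtain ⟨E, ⟨z, _, h3⟩, h4⟩ := plr_iff.1 hD
      exact absurd (cf_single.1 h3) (by simp [St])
  | plus s t ihs iht =>
    refine ((Set.toFinite {[plus s t]}).union (ihs.union iht)).subset ?_
    intro D hD
    rcases lr_cases hD with rfl | hD
    · exact Or.inl rfl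
    · rcases plr_plus_cases hD with h | h
      · exact Or.inr (Or.inl h.to_reflTransGen)
      · exact Or.inr (Or.inr h.to_reflTransGen)
  | seq s t ihs iht =>
    refine ((Set.toFinite {[seq s t]}).union ((ihs.image (fun D => D ++ [t])).union iht)).subset ?_
    intro D hD
    rcases lr_cases hD with rfl | hD
    · exact Or.inl rfl
    · rcases plr_seq_cases hD with ⟨D1, h1, _, rfl⟩ | ⟨_, h⟩
      · exact Or.inr (Or.inl ⟨D1, h1.to_reflTransGen, rfl⟩)
      · exact Or.inr (Or.inr h)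
  | kstar s t ihs iht =>
    refine ((Set.toFinite {[kstar s t]}).union ((ihs.image (fun D => D ++ [kstar s t])).union iht)).subset ?_
    intro D hD
    rcases lr_cases hD with rfl | hD
    · exact Or.inl rfl
    · rcases plr_star_cases hD with ⟨D1, h1, _, rfl⟩ | ⟨_, rfl⟩ | h
      · exact Or.inr (Or.inl ⟨D1, h1.to_reflTransGen, rfl⟩)
      · exact Or.inl rfl
      · exact Or.inr (Or.inr h.to_reflTransGen)

end Finite

section Chain

variable {L : Type*}

/-- a chain of `m` actions followed by deadlock -/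
def ch (a : L) : ℕ → Term L
  | 0 => dead
  | m + 1 => seq (atom a) (ch a m)

theorem st_ch_zero {a b : L} {w : List (Term L)} : ¬ St (ch a 0) b w := by simp [ch, St]

theorem st_ch_succ {a b : L} {m : ℕ} {w : List (Term L)} : St (ch a (m + 1)) b w ↔ b = a ∧ w = [ch a m] := by
  simp only [ch, St]
  constructor
  · rintro ⟨v, ⟨rfl, rfl⟩, rfl⟩; exact ⟨rfl, rfl⟩
  · rintro ⟨rfl, rfl⟩; exact ⟨[], ⟨rfl, rfl⟩, rfl⟩

theorem ch_cons {a : L} (p : ℕ) (X : List (Term L)) : LB (ch a p :: X) [ch a p] := by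
  induction p with
  | zero =>
    refine LB.of_step (by simp) ?_ ?_
    · rintro b D1 ⟨w, hw, _⟩; exact absurd hw st_ch_zero
    · rintro b D1 ⟨w, hw, _⟩; exact absurd hw st_ch_zero
  | succ p ih =>
    refine LB.of_step (by simp) ?_ ?_
    · rintro b D1 ⟨w, hw, rfl⟩
      obtain ⟨rfl, rfl⟩ := st_ch_succ.1 hw
      exact ⟨[ch b p], cf_single.2 (st_ch_succ.2 ⟨rfl, rfl⟩), ih⟩
    · rintro b D1 hc
      obtain ⟨rfl, rfl⟩ := st_ch_succ.1 (cf_single.1 hc)
      exact ⟨ch b p :: X, ⟨[ch b p], st_ch_succ.2 ⟨rfl, rfl⟩, rfl⟩, ih⟩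

theorem ch_inj {a : L} {p q : ℕ} (h : LB [ch a p] [ch a q]) : p = q := by
  induction p generalizing q with
  | zero =>
    cases q with
    | zero => rfl
    | succ q =>
      obtain ⟨D, h1, _⟩ := h.bwd (cf_single.2 (st_ch_succ.2 ⟨rfl, rfl⟩))
      exact absurd (cf_single.1 h1) st_ch_zero
  | succ p ih =>
    cases q with
    | zero =>
      obtain ⟨D, h1, _⟩ := h.fwd (cf_single.2 (st_ch_succ.2 ⟨rfl, rfl⟩))
      exact absurd (cf_single.1 h1) st_ch_zero
    | succ q =>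
      obtain ⟨D, h1, h2⟩ := h.fwd (cf_single.2 (st_ch_succ.2 ⟨rfl, rfl⟩))
      obtain ⟨_, rfl⟩ := st_ch_succ.1 (cf_single.1 h1)
      rw [ih h2]

theorem ch_cons_inj {a : L} {p q : ℕ} {X Y : List (Term L)} (h : LB (ch a p :: X) (ch a q :: Y)) : p = q :=
  ch_inj (((ch_cons p X).symm.trans h).trans (ch_cons q Y))

end Chain

section Encode

variable {A : Type*}

/-- the marker of variable number `k` -/
def mk (a0 : A) (m : ℕ) : Term A := plus (ch a0 (m + 1)) (atom a0)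

/-- the encoding of variables as closed terms -/
def enc (a0 : A) (M0 : ℕ) : A ⊕ ℕ → Term A := close (fun k => seq (atom a0) (mk a0 (M0 + k)))

theorem st_mk {a0 b : A} {m : ℕ} {w : List (Term A)} : St (mk a0 m) b w ↔ b = a0 ∧ (w = [ch a0 m] ∨ w = []) := by
  simp only [mk, St, st_ch_succ]
  constructor
  · rintro (⟨rfl, rfl⟩ | ⟨rfl, rfl⟩)
    · exact ⟨rfl, Or.inl rfl⟩
    · exact ⟨rfl, Or.inr rfl⟩
  · rintro ⟨rfl, rfl | rfl⟩
    · exact Or.inl ⟨rfl, rfl⟩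
    · exact Or.inr ⟨rfl, rfl⟩

theorem cf_enc {a0 : A} {M0 : ℕ} {D : List (Term (A ⊕ ℕ))} {b : A} {Y : List (Term A)} :
    Cf (D.map (inst (enc a0 M0))) b Y ↔
      (∃ D1, Cf D (Sum.inl b) D1 ∧ Y = D1.map (inst (enc a0 M0))) ∨
      (b = a0 ∧ ∃ k D1, Cf D (Sum.inr k) D1 ∧ Y = mk a0 (M0 + k) :: D1.map (inst (enc a0 M0))) := by
  rw [cf_bind]
  constructor
  · rintro ⟨z, D1, v, h1, h2, rfl⟩
    rcases z with c | k
    · obtain ⟨rfl, rfl⟩ : b = c ∧ v = [] := h2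
      exact Or.inl ⟨D1, h1, rfl⟩
    · obtain ⟨v', ⟨rfl, rfl⟩, rfl⟩ : ∃ v', (b = a0 ∧ v' = []) ∧ v = v' ++ [mk a0 (M0 + k)] := h2
      exact Or.inr ⟨rfl, k, D1, h1, rfl⟩
  · rintro (⟨D1, h1, rfl⟩ | ⟨rfl, k, D1, h1, rfl⟩)
    · exact ⟨Sum.inl b, D1, [], h1, ⟨rfl, rfl⟩, rfl⟩
    · exact ⟨Sum.inr k, D1, [mk b (M0 + k)], h1, ⟨[], ⟨rfl, rfl⟩, rfl⟩, rfl⟩

theorem mk_steps {a0 : A} {m q : ℕ} {X : List (Term A)} (h : LB (mk a0 m :: X) [ch a0 q]) :
    q = m + 1 ∧ LB X [ch a0 m] := by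
  cases q with
  | zero =>
    exfalso
    obtain ⟨D, h1, _⟩ := h.fwd (a := a0) (D1 := [] ++ X) ⟨[], st_mk.2 ⟨rfl, Or.inr rfl⟩, rfl⟩
    exact absurd (cf_single.1 h1) st_ch_zero
  | succ q =>
    obtain ⟨D, h1, h2⟩ := h.fwd (a := a0) (D1 := [] ++ X) ⟨[], st_mk.2 ⟨rfl, Or.inr rfl⟩, rfl⟩
    obtain ⟨_, rfl⟩ := st_ch_succ.1 (cf_single.1 h1)
    obtain ⟨D, h3, h4⟩ := h.fwd (a := a0) (D1 := [ch a0 m] ++ X) ⟨[ch a0 m], st_mk.2 ⟨rfl, Or.inl rfl⟩, rfl⟩
    obtain ⟨_, rfl⟩ := st_ch_succ.1 (cf_single.1 h3)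
    obtain rfl := ch_cons_inj h4
    exact ⟨rfl, h2⟩

theorem encode {a0 : A} {S : Set (List (Term (A ⊕ ℕ)))} (hfin : S.Finite)
    (hS : ∀ D ∈ S, ∀ z D', Cf D z D' → D' ∈ S) : ∃ M0 : ℕ, ∀ D ∈ S, ∀ D' ∈ S,
      LB (D.map (inst (enc a0 M0))) (D'.map (inst (enc a0 M0))) → LB D D' := by
  classical
  -- bound for the chains
  obtain ⟨M0, hM0⟩ : ∃ M0 : ℕ, ∀ D ∈ S, ∀ m, LB D [ch (Sum.inl a0) m] → m < M0 := by
    have hf : (⋃ D ∈ S, {m | LB D [ch (Sum.inl a0) m]}).Finite :=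
      hfin.biUnion (fun D _ => Set.Subsingleton.finite (fun m hm m' hm' => ch_inj (LB.trans (LB.symm hm) hm')))
    obtain ⟨B, hB⟩ := hf.bddAbove
    exact ⟨B + 1, fun D hD m hm => Nat.lt_succ_of_le (hB (Set.mem_biUnion hD hm))⟩
  have hZ : ∀ m, ∀ D ∈ S, LB (D.map (inst (enc a0 M0))) [ch a0 m] → LB D [ch (Sum.inl a0) m] := by
    intro m
    induction m using Nat.strong_induction_on with
    | _ m ih =>
      intro D hD hB
      have hno : ∀ k D1, ¬ Cf D (Sum.inr k) D1 := by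
        intro k D1 hc
        obtain ⟨X, h1, h2⟩ := hB.fwd (cf_enc.2 (Or.inr ⟨rfl, k, D1, hc, rfl⟩))
        cases m with
        | zero => exact absurd (cf_single.1 h1) st_ch_zero
        | succ m =>
          obtain ⟨_, rfl⟩ := st_ch_succ.1 (cf_single.1 h1)
          obtain ⟨rfl, h3⟩ := mk_steps h2
          have h4 := ih (M0 + k) (by omega) D1 (hS D hD _ _ hc) h3
          have := hM0 D1 (hS D hD _ _ hc) _ h4
          omega
      refine LB.of_step ?_ ?_ ?_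
      · have := hB.nil_iff
        simpa using this
      · rintro (b | k) D1 hc
        · obtain ⟨X, h1, h2⟩ := hB.fwd (cf_enc.2 (Or.inl ⟨D1, hc, rfl⟩))
          cases m with
          | zero => exact absurd (cf_single.1 h1) st_ch_zero
          | succ m =>
            obtain ⟨rfl, rfl⟩ := st_ch_succ.1 (cf_single.1 h1)
            exact ⟨[ch (Sum.inl b) m], cf_single.2 (st_ch_succ.2 ⟨rfl, rfl⟩), ih m (by omega) D1 (hS D hD _ _ hc) h2⟩
        · exact absurd hc (hno k D1)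
      · intro z X hc
        cases m with
        | zero => exact absurd (cf_single.1 hc) st_ch_zero
        | succ m =>
          obtain ⟨rfl, rfl⟩ := st_ch_succ.1 (cf_single.1 hc)
          obtain ⟨Y, h1, h2⟩ := hB.bwd (cf_single.2 (st_ch_succ.2 ⟨rfl, rfl⟩))
          rcases cf_enc.1 h1 with ⟨D1, h3, rfl⟩ | ⟨_, k, D1, h3, rfl⟩
          · exact ⟨D1, h3, ih m (by omega) D1 (hS D hD _ _ h3) h2⟩
          · exact absurd h3 (hno k D1)
  have hZ2 : ∀ m, ∀ D ∈ S, LB (D.map (inst (enc a0 M0))) [ch a0 (M0 + m)] → False := by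
    intro m D hD hB
    have := hM0 D hD _ (hZ _ D hD hB)
    omega
  have hC : ∀ D ∈ S, ∀ k X, ¬ LB (D.map (inst (enc a0 M0))) (mk a0 (M0 + k) :: X) := by
    intro D hD k X hB
    obtain ⟨Y, h1, h2⟩ := hB.bwd (a := a0) (D1' := [ch a0 (M0 + k)] ++ X) ⟨_, st_mk.2 ⟨rfl, Or.inl rfl⟩, rfl⟩
    have h3 : LB Y [ch a0 (M0 + k)] := h2.trans (ch_cons _ _)
    rcases cf_enc.1 h1 with ⟨D1, h4, rfl⟩ | ⟨_, k', D1, h4, rfl⟩
    · exact hZ2 k D1 (hS D hD _ _ h4) h3
    · exact hZ2 k' D1 (hS D hD _ _ h4) (mk_steps h3).2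
  have half : ∀ D ∈ S, ∀ D' ∈ S, LB (D.map (inst (enc a0 M0))) (D'.map (inst (enc a0 M0))) →
      ∀ z D1, Cf D z D1 → ∃ D1', Cf D' z D1' ∧ D1 ∈ S ∧ D1' ∈ S ∧
        LB (D1.map (inst (enc a0 M0))) (D1'.map (inst (enc a0 M0))) := by
    rintro D hD D' hD' hB (b | k) D1 hc
    · obtain ⟨Y, h1, h2⟩ := hB.fwd (cf_enc.2 (Or.inl ⟨D1, hc, rfl⟩))
      rcases cf_enc.1 h1 with ⟨D1', h3, rfl⟩ | ⟨rfl, k', D1', h3, rfl⟩
      · exact ⟨D1', h3, hS D hD _ _ hc, hS D' hD' _ _ h3, h2⟩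
      · exact absurd h2 (hC D1 (hS D hD _ _ hc) k' _)
    · obtain ⟨Y, h1, h2⟩ := hB.fwd (cf_enc.2 (Or.inr ⟨rfl, k, D1, hc, rfl⟩))
      rcases cf_enc.1 h1 with ⟨D1', h3, rfl⟩ | ⟨_, k', D1', h3, rfl⟩
      · exact absurd h2.symm (hC D1' (hS D' hD' _ _ h3) k _)
      · have hD1 := hS D hD _ _ hc
        have hD1' := hS D' hD' _ _ h3
        have hkk : k = k' := by
          obtain ⟨Y2, h4, h5⟩ := h2.fwd (a := a0) (D1 := [ch a0 (M0 + k)] ++ D1.map (inst (enc a0 M0)))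
            ⟨_, st_mk.2 ⟨rfl, Or.inl rfl⟩, rfl⟩
          obtain ⟨w, hw, rfl⟩ := h4
          obtain ⟨_, rfl | rfl⟩ := st_mk.1 hw
          · have := ch_cons_inj h5
            omega
          · exact absurd (h5.symm.trans (ch_cons _ _)) (hZ2 k D1' hD1')
        subst hkk
        obtain ⟨Y3, h6, h7⟩ := h2.fwd (a := a0) (D1 := [] ++ D1.map (inst (enc a0 M0)))
          ⟨_, st_mk.2 ⟨rfl, Or.inr rfl⟩, rfl⟩
        obtain ⟨w, hw, rfl⟩ := h6
        obtain ⟨_, rfl | rfl⟩ := st_mk.1 hw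
        · exact absurd (h7.trans (ch_cons _ _)) (hZ2 k D1 hD1)
        · exact ⟨D1', h3, hD1, hD1', h7⟩
  refine ⟨M0, fun D hD D' hD' hB => ⟨fun D D' => D ∈ S ∧ D' ∈ S ∧
    LB (D.map (inst (enc a0 M0))) (D'.map (inst (enc a0 M0))), ⟨?_, ?_, ?_⟩, hD, hD', hB⟩⟩
  · rintro D D' ⟨_, _, h⟩
    simpa using h.nil_iff
  · rintro D D' z D1 ⟨h1, h2, h3⟩ hc
    exact half D h1 D' h2 h3 z D1 hc
  · rintro D D' z D1' ⟨h1, h2, h3⟩ hc
    obtain ⟨D1, h4, h5, h6, h7⟩ := half D' h2 D h1 h3.symm z D1' hc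
    exact ⟨D1, h4, h6, h5, h7.symm⟩

end Encode

end Pool.Agent.Helper501.Bpa
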