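import Mathlib

/-!
Process terms of BPA with deadlock and binary Kleene star, bisimilarity, and equational
axiomatizations.
-/

namespace Pool.Agent.Helper501.Bpa

/-- Process terms over a set `L` of atoms, with the deadlock constant `dead`, alternative
composition, sequential composition and the binary Kleene star.
The closed terms are the terms over the set `A` of actions; the open terms are the terms over
`A ⊕ ℕ`, the actions and the variables. -/
inductive Term (L : Type*)
  | atom (a : L)
  | dead
  | plus (s t : Term L)
  | seq (s t : Term L)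
  | kstar (s t : Term L)

namespace Term

/-- Simultaneous substitution of terms for atoms. -/
def inst {L M : Type*} (σ : L → Term M) : Term L → Term M
  | atom a => σ a
  | dead => dead
  | plus s t => plus (inst σ s) (inst σ t)
  | seq s t => seq (inst σ s) (inst σ t)
  | kstar s t => kstar (inst σ s) (inst σ t)

end Term

open Term

/-- Transitions of closed terms; `none` is successful termination. The last clause says that
`p * q` has the transitions of `(p . (p * q)) + q`. -/
inductive Tr {A : Type*} : Term A → A → Option (Term A) → Prop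
  | atom (a : A) : Tr (atom a) a none
  | plus_left {p q : Term A} {a : A} {r : Option (Term A)} : Tr p a r → Tr (plus p q) a r
  | plus_right {p q : Term A} {a : A} {r : Option (Term A)} : Tr q a r → Tr (plus p q) a r
  | seq_step {p p' q : Term A} {a : A} : Tr p a (some p') → Tr (seq p q) a (some (seq p' q))
  | seq_done {p q : Term A} {a : A} : Tr p a none → Tr (seq p q) a (some q)
  | kstar {p q : Term A} {a : A} {r : Option (Term A)} : Tr (plus (seq p (kstar p q)) q) a r → Tr (kstar p q) a r

/-- Bisimulations on closed terms. -/
structure IsBisim {A : Type*} (R : Term A → Term A → Prop) : Prop where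
  symm : ∀ p q, R p q → R q p
  step : ∀ p q a p', R p q → Tr p a (some p') → ∃ q', Tr q a (some q') ∧ R p' q'
  done : ∀ p q a, R p q → Tr p a none → Tr q a none

/-- Strong bisimilarity of closed terms. -/
def Bisim {A : Type*} (p q : Term A) : Prop := ∃ R : Term A → Term A → Prop, IsBisim R ∧ R p q

/-- Closed instances: every action is kept and variable number `k` is replaced by `ρ k`. -/
def close {A : Type*} (ρ : ℕ → Term A) : A ⊕ ℕ → Term A := Sum.elim atom ρ

/-- An equation between open terms is valid if all its closed instances are bisimilar. -/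
def Valid {A : Type*} (t u : Term (A ⊕ ℕ)) : Prop :=
  ∀ ρ : ℕ → Term A, Bisim (inst (close ρ) t) (inst (close ρ) u)

/-- Substitutions of open terms for variables: actions are kept. -/
def osub {A : Type*} (τ : ℕ → Term (A ⊕ ℕ)) : A ⊕ ℕ → Term (A ⊕ ℕ) :=
  Sum.elim (fun a => atom (Sum.inl a)) τ

/-- Derivability in equational logic from a set of equations between open terms. -/
inductive Der {A : Type*} (E : Set (Term (A ⊕ ℕ) × Term (A ⊕ ℕ))) : Term (A ⊕ ℕ) → Term (A ⊕ ℕ) → Prop
  | ax {t u : Term (A ⊕ ℕ)} (h : (t, u) ∈ E) (τ : ℕ → Term (A ⊕ ℕ)) : Der E (inst (osub τ) t) (inst (osub τ) u)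
  | refl (t : Term (A ⊕ ℕ)) : Der E t t
  | symm {t u : Term (A ⊕ ℕ)} : Der E t u → Der E u t
  | trans {t u v : Term (A ⊕ ℕ)} : Der E t u → Der E u v → Der E t v
  | plus {s s' t t' : Term (A ⊕ ℕ)} : Der E s s' → Der E t t' → Der E (plus s t) (plus s' t')
  | seq {s s' t t' : Term (A ⊕ ℕ)} : Der E s s' → Der E t t' → Der E (seq s t) (seq s' t')
  | kstar {s s' t t' : Term (A ⊕ ℕ)} : Der E s s' → Der E t t' → Der E (kstar s t) (kstar s' t')

/-- An equational axiomatization of bisimilarity: derivability coincides with validity. -/
def IsAxiomatization {A : Type*} (E : Set (Term (A ⊕ ℕ) × Term (A ⊕ ℕ))) : Prop :=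
  ∀ t u, Der E t u ↔ Valid t u

/-- The atom occurs in the term. -/
def Occ {L : Type*} (a : L) : Term L → Prop
  | atom b => a = b
  | dead => False
  | plus s t => Occ a s ∨ Occ a t
  | seq s t => Occ a s ∨ Occ a t
  | kstar s t => Occ a s ∨ Occ a t

/-- The variable number `x` occurs in the equation. -/
def VarIn {A : Type*} (x : ℕ) (e : Term (A ⊕ ℕ) × Term (A ⊕ ℕ)) : Prop :=
  Occ (Sum.inr x) e.1 ∨ Occ (Sum.inr x) e.2

end Pool.Agent.Helper501.Bpa
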