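import Pool.Agent.Helper501.Bpa.Defs

namespace Pool.Agent.Helper501.Bpa

open Relation

open Term

section Lts

variable {L : Type*}

/-- Steps of a term; the result is a stack of terms to be executed. -/
def St : Term L → L → List (Term L) → Prop
  | atom b, a, w => a = b ∧ w = []
  | dead, _, _ => False
  | plus s t, a, w => St s a w ∨ St t a w
  | seq s t, a, w => ∃ v, St s a v ∧ w = v ++ [t]
  | kstar s t, a, w => (∃ v, St s a v ∧ w = v ++ [kstar s t]) ∨ St t a w

/-- Steps of a stack. -/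
def Cf : List (Term L) → L → List (Term L) → Prop
  | [], _, _ => False
  | t :: R, a, D => ∃ w, St t a w ∧ D = w ++ R

theorem cf_single {t : Term L} {a : L} {w : List (Term L)} : Cf [t] a w ↔ St t a w := by
  simp [Cf]

theorem cf_append {D1 D2 : List (Term L)} (h : D1 ≠ []) {a : L} {D : List (Term L)} :
    Cf (D1 ++ D2) a D ↔ ∃ D1', Cf D1 a D1' ∧ D = D1' ++ D2 := by
  cases D1 with
  | nil => exact absurd rfl h
  | cons t R =>
    simp only [List.cons_append, Cf]
    constructor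
    · rintro ⟨w, h1, rfl⟩
      exact ⟨w ++ R, ⟨w, h1, rfl⟩, by simp⟩
    · rintro ⟨_, ⟨w, h1, rfl⟩, rfl⟩
      exact ⟨w, h1, by simp⟩

theorem cf_append_right {D1 : List (Term L)} {a : L} {D : List (Term L)} (h : Cf D1 a D) (D2 : List (Term L)) :
    Cf (D1 ++ D2) a (D ++ D2) := by
  have h1 : D1 ≠ [] := by rintro rfl; exact h
  exact (cf_append h1).2 ⟨D, h, rfl⟩

/-- A term can terminate, using live atoms only. -/
def CT (live : L → Prop) : Term L → Prop
  | atom a => live a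
  | dead => False
  | plus s t => CT live s ∨ CT live t
  | seq s t => CT live s ∧ CT live t
  | kstar _ t => CT live t

def CTL (live : L → Prop) (D : List (Term L)) : Prop := ∀ t ∈ D, CT live t

theorem CTL_append {live : L → Prop} {D1 D2 : List (Term L)} :
    CTL live (D1 ++ D2) ↔ CTL live D1 ∧ CTL live D2 := by
  simp only [CTL, List.mem_append, or_imp, forall_and]

theorem CTL_nil {live : L → Prop} : CTL live ([] : List (Term L)) := by simp [CTL]

theorem CTL_cons {live : L → Prop} {t : Term L} {R : List (Term L)} :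
    CTL live (t :: R) ↔ CT live t ∧ CTL live R := by simp [CTL]

theorem CT_of_St {live : L → Prop} {t : Term L} {a : L} {w : List (Term L)} (ha : live a)
    (h : St t a w) (hw : CTL live w) : CT live t := by
  induction t generalizing w with
  | atom b => obtain ⟨rfl, _⟩ := h; exact ha
  | dead => exact h
  | plus s t ihs iht =>
    rcases h with h | h
    · exact Or.inl (ihs h hw)
    · exact Or.inr (iht h hw)
  | seq s t ihs iht =>
    obtain ⟨v, h1, rfl⟩ := h
    rw [CTL_append] at hw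
    exact ⟨ihs h1 hw.1, (CTL_cons.1 hw.2).1⟩
  | kstar s t ihs iht =>
    rcases h with ⟨v, h1, rfl⟩ | h
    · rw [CTL_append] at hw
      exact (CTL_cons.1 hw.2).1
    · exact iht h hw

/-- A live step. -/
def Sl (live : L → Prop) (D D' : List (Term L)) : Prop := ∃ a, live a ∧ Cf D a D'

/-- Live reachability. -/
abbrev LR (live : L → Prop) : List (Term L) → List (Term L) → Prop := ReflTransGen (Sl live)

/-- Live reachability in at least one step. -/
abbrev PLR (live : L → Prop) : List (Term L) → List (Term L) → Prop := TransGen (Sl live)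

theorem Sl.append {live : L → Prop} {D D' : List (Term L)} (h : Sl live D D') (R : List (Term L)) :
    Sl live (D ++ R) (D' ++ R) := by
  obtain ⟨a, ha, h⟩ := h
  exact ⟨a, ha, cf_append_right h R⟩

theorem LR.append {live : L → Prop} {D D' : List (Term L)} (h : LR live D D') (R : List (Term L)) :
    LR live (D ++ R) (D' ++ R) := by
  induction h with
  | refl => exact ReflTransGen.refl
  | tail _ h ih => exact ih.tail (h.append R)

theorem PLR.append {live : L → Prop} {D D' : List (Term L)} (h : PLR live D D') (R : List (Term L)) :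
    PLR live (D ++ R) (D' ++ R) := by
  induction h with
  | single h => exact TransGen.single (h.append R)
  | tail _ h ih => exact ih.tail (h.append R)

theorem CTL_of_Sl {live : L → Prop} {D D' : List (Term L)} (h : Sl live D D') (h' : CTL live D') : CTL live D := by
  obtain ⟨a, ha, h⟩ := h
  cases D with
  | nil => exact absurd h (by simp [Cf])
  | cons t R =>
    obtain ⟨w, h1, rfl⟩ := h
    rw [CTL_append] at h'
    exact CTL_cons.2 ⟨CT_of_St ha h1 h'.1, h'.2⟩

theorem CTL_of_LR {live : L → Prop} {D D' : List (Term L)} (h : LR live D D') (h' : CTL live D') : CTL live D := by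
  induction h using ReflTransGen.head_induction_on with
  | refl => exact h'
  | head h1 _ ih => exact CTL_of_Sl h1 ih

/-- replacing the first term of a stack by one with more steps -/
theorem PLR.mono_head {live : L → Prop} {D1 D2 D : List (Term L)} (h : PLR live D1 D)
    (h1 : ∀ a w, Cf D1 a w → Cf D2 a w) : PLR live D2 D := by
  obtain ⟨E, ⟨a, ha, hE⟩, h3⟩ := TransGen.head'_iff.1 h
  exact TransGen.head'_iff.2 ⟨E, ⟨a, ha, h1 _ _ hE⟩, h3⟩

theorem PLR_of_CT {live : L → Prop} {t : Term L} (h : CT live t) : PLR live [t] [] := by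
  induction t with
  | atom a => exact TransGen.single ⟨a, h, by simp [Cf, St]⟩
  | dead => exact absurd h (by simp [CT])
  | plus s t ihs iht =>
    rcases h with h | h
    · exact (ihs h).mono_head (fun a w hw => by rw [cf_single] at *; exact Or.inl hw)
    · exact (iht h).mono_head (fun a w hw => by rw [cf_single] at *; exact Or.inr hw)
  | seq s t ihs iht =>
    have h1 : PLR live ([s] ++ [t]) ([] ++ [t]) := (ihs h.1).append [t]
    have h2 : PLR live [seq s t] [t] := by
      refine h1.mono_head (fun a w hw => ?_)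
      obtain ⟨v, h3, rfl⟩ := (cf_append (by simp)).1 hw
      rw [cf_single] at *
      exact ⟨v, h3, rfl⟩
    exact h2.trans (iht h.2)
  | kstar s t ihs iht =>
    exact (iht h).mono_head (fun a w hw => by rw [cf_single] at *; exact Or.inr hw)

theorem LR_of_CTL {live : L → Prop} {D : List (Term L)} (h : CTL live D) : LR live D [] := by
  induction D with
  | nil => exact ReflTransGen.refl
  | cons t R ih =>
    rw [CTL_cons] at h
    have h1 : PLR live ([t] ++ R) ([] ++ R) := (PLR_of_CT h.1).append R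
    exact h1.to_reflTransGen.trans (ih h.2)

theorem plr_seq {live : L → Prop} {s t : Term L} {D : List (Term L)} (h : PLR live [s] D) :
    PLR live [seq s t] (D ++ [t]) := by
  refine (h.append [t]).mono_head (fun a w hw => ?_)
  obtain ⟨v, h3, rfl⟩ := (cf_append (by simp)).1 hw
  rw [cf_single] at *
  exact ⟨v, h3, rfl⟩

theorem plr_star {live : L → Prop} {s t : Term L} {D : List (Term L)} (h : PLR live [s] D) :
    PLR live [kstar s t] (D ++ [kstar s t]) := by
  refine (h.append [kstar s t]).mono_head (fun a w hw => ?_)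
  obtain ⟨v, h3, rfl⟩ := (cf_append (by simp)).1 hw
  rw [cf_single] at *
  exact Or.inl ⟨v, h3, rfl⟩

theorem plr_star_right {live : L → Prop} {s t : Term L} {D : List (Term L)} (h : PLR live [t] D) :
    PLR live [kstar s t] D :=
  h.mono_head (fun a w hw => by rw [cf_single] at *; exact Or.inr hw)

theorem plr_plus_left {live : L → Prop} {s t : Term L} {D : List (Term L)} (h : PLR live [s] D) :
    PLR live [plus s t] D :=
  h.mono_head (fun a w hw => by rw [cf_single] at *; exact Or.inl hw)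

theorem plr_plus_right {live : L → Prop} {s t : Term L} {D : List (Term L)} (h : PLR live [t] D) :
    PLR live [plus s t] D :=
  h.mono_head (fun a w hw => by rw [cf_single] at *; exact Or.inr hw)

theorem plr_seq_mid {live : L → Prop} {s t : Term L} (h : CT live s) : PLR live [seq s t] [t] := by
  simpa using plr_seq (t := t) (PLR_of_CT h)

theorem plr_seq_right {live : L → Prop} {s t : Term L} (h : CT live s) {D : List (Term L)} (h2 : PLR live [t] D) :
    PLR live [seq s t] D := (plr_seq_mid h).trans h2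

theorem plr_star_self {live : L → Prop} {s t : Term L} (h : CT live s) : PLR live [kstar s t] [kstar s t] := by
  simpa using plr_star (t := t) (PLR_of_CT h)

/-- reachable configurations of a concatenation -/
theorem lr_append_cases {live : L → Prop} {D1 D2 D : List (Term L)} (h : LR live (D1 ++ D2) D) :
    (∃ D1', LR live D1 D1' ∧ D1' ≠ [] ∧ D = D1' ++ D2) ∨ (CTL live D1 ∧ LR live D2 D) := by
  induction h with
  | refl =>
    by_cases h : D1 = []
    · subst h; exact Or.inr ⟨CTL_nil, ReflTransGen.refl⟩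
    · exact Or.inl ⟨D1, ReflTransGen.refl, h, rfl⟩
  | tail _ h ih =>
    rcases ih with ⟨D1', h1, h2, rfl⟩ | ⟨h1, h2⟩
    · obtain ⟨a, ha, h⟩ := h
      obtain ⟨E, h3, rfl⟩ := (cf_append h2).1 h
      have h4 : LR live D1 E := h1.tail ⟨a, ha, h3⟩
      by_cases hE : E = []
      · subst hE
        exact Or.inr ⟨CTL_of_LR h4 CTL_nil, ReflTransGen.refl⟩
      · exact Or.inl ⟨E, h4, hE, rfl⟩
    · exact Or.inr ⟨h1, h2.tail h⟩

theorem plr_iff {live : L → Prop} {D D' : List (Term L)} : PLR live D D' ↔ ∃ E, Sl live D E ∧ LR live E D' :=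
  TransGen.head'_iff

theorem plr_plus_cases {live : L → Prop} {s t : Term L} {D : List (Term L)} (h : PLR live [plus s t] D) :
    PLR live [s] D ∨ PLR live [t] D := by
  obtain ⟨E, ⟨a, ha, h1⟩, h2⟩ := plr_iff.1 h
  rw [cf_single] at h1
  rcases h1 with h1 | h1
  · exact Or.inl (plr_iff.2 ⟨E, ⟨a, ha, cf_single.2 h1⟩, h2⟩)
  · exact Or.inr (plr_iff.2 ⟨E, ⟨a, ha, cf_single.2 h1⟩, h2⟩)

theorem plr_append_cases {live : L → Prop} {s t : Term L} {a : L} (ha : live a) {v D : List (Term L)}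
    (h1 : St s a v) (h2 : LR live (v ++ [t]) D) :
    (∃ D1, PLR live [s] D1 ∧ D1 ≠ [] ∧ D = D1 ++ [t]) ∨ (CT live s ∧ LR live [t] D) := by
  rcases lr_append_cases h2 with ⟨D1, h3, h4, rfl⟩ | ⟨h3, h4⟩
  · exact Or.inl ⟨D1, plr_iff.2 ⟨v, ⟨a, ha, cf_single.2 h1⟩, h3⟩, h4, rfl⟩
  · exact Or.inr ⟨CT_of_St ha h1 h3, h4⟩

theorem plr_seq_cases {live : L → Prop} {s t : Term L} {D : List (Term L)} (h : PLR live [seq s t] D) :
    (∃ D1, PLR live [s] D1 ∧ D1 ≠ [] ∧ D = D1 ++ [t]) ∨ (CT live s ∧ LR live [t] D) := by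
  obtain ⟨E, ⟨a, ha, h1⟩, h2⟩ := plr_iff.1 h
  rw [cf_single] at h1
  obtain ⟨v, h1, rfl⟩ := h1
  exact plr_append_cases ha h1 h2

theorem lr_cases {live : L → Prop} {D D' : List (Term L)} (h : LR live D D') : D' = D ∨ PLR live D D' :=
  reflTransGen_iff_eq_or_transGen.1 h

end Lts

end Pool.Agent.Helper501.Bpa

namespace Pool.Agent.Helper501.Bpa

open Relation Term

section Bis

variable {L : Type*}

/-- Bisimulations between stacks. -/
structure IsB (R : List (Term L) → List (Term L) → Prop) : Prop where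
  nil : ∀ D D', R D D' → (D = [] ↔ D' = [])
  fwd : ∀ D D' a D1, R D D' → Cf D a D1 → ∃ D1', Cf D' a D1' ∧ R D1 D1'
  bwd : ∀ D D' a D1', R D D' → Cf D' a D1' → ∃ D1, Cf D a D1 ∧ R D1 D1'

/-- Bisimilarity of stacks. -/
def LB (D D' : List (Term L)) : Prop := ∃ R, IsB R ∧ R D D'

theorem LB.refl (D : List (Term L)) : LB D D :=
  ⟨Eq, ⟨by rintro D _ rfl; rfl, by rintro D _ a D1 rfl h; exact ⟨D1, h, rfl⟩,
    by rintro D _ a D1 rfl h; exact ⟨D1, h, rfl⟩⟩, rfl⟩

theorem LB.symm {D D' : List (Term L)} (h : LB D D') : LB D' D := by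
  obtain ⟨R, hR, h⟩ := h
  exact ⟨fun a b => R b a, ⟨fun D D' h => (hR.nil D' D h).symm, fun D D' a D1 h1 h2 => hR.bwd _ _ _ _ h1 h2,
    fun D D' a D1 h1 h2 => hR.fwd _ _ _ _ h1 h2⟩, h⟩

theorem LB.trans {D D' D'' : List (Term L)} (h : LB D D') (h' : LB D' D'') : LB D D'' := by
  obtain ⟨R, hR, h⟩ := h
  obtain ⟨R', hR', h'⟩ := h'
  refine ⟨fun a c => ∃ b, R a b ∧ R' b c, ⟨?_, ?_, ?_⟩, ⟨D', h, h'⟩⟩
  · rintro a c ⟨b, h1, h2⟩
    exact (hR.nil _ _ h1).trans (hR'.nil _ _ h2)
  · rintro a c l a1 ⟨b, h1, h2⟩ h3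
    obtain ⟨b1, h4, h5⟩ := hR.fwd _ _ _ _ h1 h3
    obtain ⟨c1, h6, h7⟩ := hR'.fwd _ _ _ _ h2 h4
    exact ⟨c1, h6, b1, h5, h7⟩
  · rintro a c l c1 ⟨b, h1, h2⟩ h3
    obtain ⟨b1, h4, h5⟩ := hR'.bwd _ _ _ _ h2 h3
    obtain ⟨a1, h6, h7⟩ := hR.bwd _ _ _ _ h1 h4
    exact ⟨a1, h6, b1, h7, h5⟩

theorem LB.nil_iff {D D' : List (Term L)} (h : LB D D') : D = [] ↔ D' = [] := by
  obtain ⟨R, hR, h⟩ := h
  exact hR.nil _ _ h

theorem LB.fwd {D D' : List (Term L)} (h : LB D D') {a : L} {D1 : List (Term L)} (h1 : Cf D a D1) :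
    ∃ D1', Cf D' a D1' ∧ LB D1 D1' := by
  obtain ⟨R, hR, h⟩ := h
  obtain ⟨D1', h2, h3⟩ := hR.fwd _ _ _ _ h h1
  exact ⟨D1', h2, R, hR, h3⟩

theorem LB.bwd {D D' : List (Term L)} (h : LB D D') {a : L} {D1' : List (Term L)} (h1 : Cf D' a D1') :
    ∃ D1, Cf D a D1 ∧ LB D1 D1' := by
  obtain ⟨D1, h2, h3⟩ := h.symm.fwd h1
  exact ⟨D1, h2, h3.symm⟩

theorem isB_LB : IsB (LB (L := L)) :=
  ⟨fun _ _ h => h.nil_iff, fun _ _ _ _ h h1 => h.fwd h1, fun _ _ _ _ h h1 => h.bwd h1⟩

/-- unfolding -/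
theorem LB.of_step {D D' : List (Term L)} (h0 : D = [] ↔ D' = [])
    (h1 : ∀ a D1, Cf D a D1 → ∃ D1', Cf D' a D1' ∧ LB D1 D1')
    (h2 : ∀ a D1', Cf D' a D1' → ∃ D1, Cf D a D1 ∧ LB D1 D1') : LB D D' := by
  refine ⟨fun E E' => (E = D ∧ E' = D') ∨ LB E E', ⟨?_, ?_, ?_⟩, Or.inl ⟨rfl, rfl⟩⟩
  · rintro E E' (⟨rfl, rfl⟩ | h)
    · exact h0
    · exact h.nil_iff
  · rintro E E' a E1 (⟨rfl, rfl⟩ | h) h3
    · obtain ⟨X, h4, h5⟩ := h1 _ _ h3
      exact ⟨X, h4, Or.inr h5⟩
    · obtain ⟨X, h4, h5⟩ := h.fwd h3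
      exact ⟨X, h4, Or.inr h5⟩
  · rintro E E' a E1 (⟨rfl, rfl⟩ | h) h3
    · obtain ⟨X, h4, h5⟩ := h2 _ _ h3
      exact ⟨X, h4, Or.inr h5⟩
    · obtain ⟨X, h4, h5⟩ := h.bwd h3
      exact ⟨X, h4, Or.inr h5⟩

theorem LB.lr {live : L → Prop} {D D' D1 : List (Term L)} (h : LB D D') (h1 : LR live D D1) :
    ∃ D1', LR live D' D1' ∧ LB D1 D1' := by
  induction h1 with
  | refl => exact ⟨D', ReflTransGen.refl, h⟩
  | tail _ h2 ih =>
    obtain ⟨E, h3, h4⟩ := ih
    obtain ⟨a, ha, h2⟩ := h2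
    obtain ⟨E1, h5, h6⟩ := h4.fwd h2
    exact ⟨E1, h3.tail ⟨a, ha, h5⟩, h6⟩

theorem LB.plr {live : L → Prop} {D D' D1 : List (Term L)} (h : LB D D') (h1 : PLR live D D1) :
    ∃ D1', PLR live D' D1' ∧ LB D1 D1' := by
  obtain ⟨E, ⟨a, ha, h2⟩, h3⟩ := plr_iff.1 h1
  obtain ⟨E', h4, h5⟩ := h.fwd h2
  obtain ⟨D1', h6, h7⟩ := h5.lr h3
  exact ⟨D1', plr_iff.2 ⟨E', ⟨a, ha, h4⟩, h6⟩, h7⟩

theorem LB.ctl {live : L → Prop} {D D' : List (Term L)} (h : LB D D') : CTL live D ↔ CTL live D' := by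
  have key : ∀ {D D' : List (Term L)}, LB D D' → CTL live D → CTL live D' := by
    intro D D' h h1
    obtain ⟨E, h2, h3⟩ := h.lr (LR_of_CTL h1)
    rw [h3.nil_iff.1 rfl] at h2
    exact CTL_of_LR h2 CTL_nil
  exact ⟨key h, key h.symm⟩

theorem ctl_single {live : L → Prop} {t : Term L} : CTL live [t] ↔ CT live t := by
  simp [CTL]

theorem LB.ct {live : L → Prop} {t t' : Term L} (h : LB [t] [t']) : CT live t ↔ CT live t' := by
  rw [← ctl_single, ← ctl_single]; exact h.ctl

end Bis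

section Typing

variable {L : Type*} {n : ℕ} (live : L → Prop) (F : L → ZMod n → ZMod n → Prop)

/-- Typing of terms by pairs of phases. -/
def Ty : Term L → ZMod n → ZMod n → Prop
  | atom a, i, j => F a i j
  | dead, _, _ => True
  | plus s t, i, j => Ty s i j ∧ Ty t i j
  | seq s t, i, j => ∃ m, Ty s i m ∧ (CT live s → Ty t m j)
  | kstar s t, i, j => Ty s i i ∧ Ty t i j

/-- Typing of stacks. -/
def TyL : List (Term L) → ZMod n → ZMod n → Prop
  | [], i, j => i = j
  | t :: R, i, j => ∃ m, Ty live F t i m ∧ (CT live t → TyL R m j)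

variable {live F}

theorem TyL_append {D1 D2 : List (Term L)} {i k j : ZMod n} (h1 : TyL live F D1 i k)
    (h2 : CTL live D1 → TyL live F D2 k j) : TyL live F (D1 ++ D2) i j := by
  induction D1 generalizing i with
  | nil =>
    have : i = k := h1
    subst this
    exact h2 CTL_nil
  | cons t R ih =>
    obtain ⟨m, h3, h4⟩ := h1
    refine ⟨m, h3, fun hc => ih (h4 hc) (fun hR => h2 (CTL_cons.2 ⟨hc, hR⟩))⟩

/-- subject reduction -/
theorem Ty.step {t : Term L} {i j : ZMod n} (h : Ty live F t i j) {a : L} (ha : live a) {w : List (Term L)}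
    (hw : St t a w) : ∃ k, F a i k ∧ TyL live F w k j := by
  induction t generalizing i j w with
  | atom b =>
    obtain ⟨rfl, rfl⟩ := hw
    exact ⟨j, h, rfl⟩
  | dead => exact absurd hw (by simp [St])
  | plus s t ihs iht =>
    rcases hw with hw | hw
    · exact ihs h.1 hw
    · exact iht h.2 hw
  | seq s t ihs iht =>
    obtain ⟨m, h1, h2⟩ := h
    obtain ⟨v, h3, rfl⟩ := hw
    obtain ⟨k, h4, h5⟩ := ihs h1 h3
    exact ⟨k, h4, TyL_append h5 (fun hc => ⟨j, h2 (CT_of_St ha h3 hc), fun _ => rfl⟩)⟩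
  | kstar s t ihs iht =>
    rcases hw with ⟨v, h3, rfl⟩ | hw
    · obtain ⟨k, h4, h5⟩ := ihs h.1 h3
      exact ⟨k, h4, TyL_append h5 (fun _ => ⟨j, h, fun _ => rfl⟩)⟩
    · exact iht h.2 hw

theorem TyL.step {D : List (Term L)} {i j : ZMod n} (h : TyL live F D i j) {a : L} (ha : live a)
    {D' : List (Term L)} (hD : Cf D a D') : ∃ k, F a i k ∧ TyL live F D' k j := by
  cases D with
  | nil => exact absurd hD (by simp [Cf])
  | cons t R =>
    obtain ⟨m, h1, h2⟩ := h
    obtain ⟨w, h3, rfl⟩ := hD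
    obtain ⟨k, h4, h5⟩ := h1.step ha h3
    exact ⟨k, h4, TyL_append h5 (fun hc => h2 (CT_of_St ha h3 hc))⟩

theorem ty_det (hF : ∀ a, live a → ∀ i j j', F a i j → F a i j' → j = j') {t : Term L} (hc : CT live t)
    {i j j' : ZMod n} (h : Ty live F t i j) (h' : Ty live F t i j') : j = j' := by
  induction t generalizing i j j' with
  | atom a => exact hF a hc _ _ _ h h'
  | dead => exact absurd hc (by simp [CT])
  | plus s t ihs iht =>
    rcases hc with hc | hc
    · exact ihs hc h.1 h'.1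
    · exact iht hc h.2 h'.2
  | seq s t ihs iht =>
    obtain ⟨m, h1, h2⟩ := h
    obtain ⟨m', h1', h2'⟩ := h'
    obtain rfl := ihs hc.1 h1 h1'
    exact iht hc.2 (h2 hc.1) (h2' hc.1)
  | kstar s t ihs iht => exact iht hc h.2 h'.2

theorem tyL_det (hF : ∀ a, live a → ∀ i j j', F a i j → F a i j' → j = j') {D : List (Term L)} (hc : CTL live D)
    {i j j' : ZMod n} (h : TyL live F D i j) (h' : TyL live F D i j') : j = j' := by
  induction D generalizing i with
  | nil =>
    have h1 : i = j := h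
    have h2 : i = j' := h'
    rw [← h1, h2]
  | cons t R ih =>
    rw [CTL_cons] at hc
    obtain ⟨m, h1, h2⟩ := h
    obtain ⟨m', h1', h2'⟩ := h'
    obtain rfl := ty_det hF hc.1 h1 h1'
    exact ih hc.2 (h2 hc.1) (h2' hc.1)

/-- the output of a term which cannot terminate is arbitrary -/
theorem ty_of_not_ct (hF : ∀ a, ¬ live a → ∀ i j j', F a i j → F a i j') {t : Term L} (hc : ¬ CT live t)
    {i j j' : ZMod n} (h : Ty live F t i j) : Ty live F t i j' := by
  induction t generalizing i j j' with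
  | atom a => exact hF a hc _ _ _ h
  | dead => trivial
  | plus s t ihs iht =>
    exact ⟨ihs (fun h1 => hc (Or.inl h1)) h.1, iht (fun h1 => hc (Or.inr h1)) h.2⟩
  | seq s t ihs iht =>
    obtain ⟨m, h1, h2⟩ := h
    exact ⟨m, h1, fun h3 => iht (fun h4 => hc ⟨h3, h4⟩) (h2 h3)⟩
  | kstar s t ihs iht => exact ⟨h.1, iht hc h.2⟩

/-- a term without steps has every type -/
theorem ty_of_no_step {t : Term L} (h : ∀ a w, ¬ St t a w) (i j : ZMod n) : Ty live F t i j := by
  induction t generalizing i j with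
  | atom a => exact absurd (⟨rfl, rfl⟩ : St (atom a) a []) (h a [])
  | dead => trivial
  | plus s t ihs iht => exact ⟨ihs (fun a w h1 => h a w (Or.inl h1)) _ _, iht (fun a w h1 => h a w (Or.inr h1)) _ _⟩
  | seq s t ihs iht =>
    have h1 : ∀ a w, ¬ St s a w := fun a w h1 => h a (w ++ [t]) ⟨w, h1, rfl⟩
    refine ⟨0, ihs h1 _ _, fun hc => ?_⟩
    obtain ⟨E, ⟨a, _, h3⟩, _⟩ := plr_iff.1 (PLR_of_CT hc)
    exact absurd (cf_single.1 h3) (h1 a E)
  | kstar s t ihs iht =>
    have h1 : ∀ a w, ¬ St s a w := fun a w h1 => h a (w ++ [kstar s t]) (Or.inl ⟨w, h1, rfl⟩)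
    exact ⟨ihs h1 _ _, iht (fun a w h1 => h a w (Or.inr h1)) _ _⟩

end Typing

section Bind

variable {L M : Type*} {n : ℕ}

theorem ct_bind {live : M → Prop} {σ : L → Term M} {t : Term L} :
    CT live (inst σ t) ↔ CT (fun z => CT live (σ z)) t := by
  induction t with
  | atom a => rfl
  | dead => rfl
  | plus s t ihs iht => simp only [inst, CT, ihs, iht]
  | seq s t ihs iht => simp only [inst, CT, ihs, iht]
  | kstar s t ihs iht => simp only [inst, CT, iht]

theorem ctl_bind {live : M → Prop} {σ : L → Term M} {D : List (Term L)} :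
    CTL live (D.map (inst σ)) ↔ CTL (fun z => CT live (σ z)) D := by
  simp [CTL, ct_bind]

theorem ty_bind {live : M → Prop} {F : M → ZMod n → ZMod n → Prop} {σ : L → Term M} {t : Term L} {i j : ZMod n} :
    Ty live F (inst σ t) i j ↔ Ty (fun z => CT live (σ z)) (fun z => Ty live F (σ z)) t i j := by
  induction t generalizing i j with
  | atom a => rfl
  | dead => rfl
  | plus s t ihs iht => simp only [inst, Ty, ihs, iht]
  | seq s t ihs iht => simp only [inst, Ty, ihs, iht, ct_bind]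
  | kstar s t ihs iht => simp only [inst, Ty, ihs, iht]

theorem st_bind {σ : L → Term M} {t : Term L} {a : M} {W : List (Term M)} :
    St (inst σ t) a W ↔ ∃ z w v, St t z w ∧ St (σ z) a v ∧ W = v ++ w.map (inst σ) := by
  induction t generalizing W with
  | atom b =>
    constructor
    · intro h
      exact ⟨b, [], W, ⟨rfl, rfl⟩, h, by simp⟩
    · rintro ⟨z, w, v, ⟨rfl, rfl⟩, h, rfl⟩
      simpa [inst] using h
  | dead =>
    constructor
    · intro h; exact absurd h (by simp [inst, St])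
    · rintro ⟨z, w, v, h, _⟩; exact absurd h (by simp [St])
  | plus s t ihs iht =>
    constructor
    · rintro (h | h)
      · obtain ⟨z, w, v, h1, h2, h3⟩ := ihs.1 h
        exact ⟨z, w, v, Or.inl h1, h2, h3⟩
      · obtain ⟨z, w, v, h1, h2, h3⟩ := iht.1 h
        exact ⟨z, w, v, Or.inr h1, h2, h3⟩
    · rintro ⟨z, w, v, h1 | h1, h2, h3⟩
      · exact Or.inl (ihs.2 ⟨z, w, v, h1, h2, h3⟩)
      · exact Or.inr (iht.2 ⟨z, w, v, h1, h2, h3⟩)
  | seq s t ihs iht =>
    constructor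
    · rintro ⟨V, h, rfl⟩
      obtain ⟨z, w, v, h1, h2, rfl⟩ := ihs.1 h
      exact ⟨z, w ++ [t], v, ⟨w, h1, rfl⟩, h2, by simp⟩
    · rintro ⟨z, _, v, ⟨w, h1, rfl⟩, h2, rfl⟩
      exact ⟨v ++ w.map (inst σ), ihs.2 ⟨z, w, v, h1, h2, rfl⟩, by simp⟩
  | kstar s t ihs iht =>
    constructor
    · rintro (⟨V, h, rfl⟩ | h)
      · obtain ⟨z, w, v, h1, h2, rfl⟩ := ihs.1 h
        exact ⟨z, w ++ [kstar s t], v, Or.inl ⟨w, h1, rfl⟩, h2, by simp [inst]⟩
      · obtain ⟨z, w, v, h1, h2, h3⟩ := iht.1 h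
        exact ⟨z, w, v, Or.inr h1, h2, h3⟩
    · rintro ⟨z, _, v, ⟨w, h1, rfl⟩ | h1, h2, h3⟩
      · subst h3
        exact Or.inl ⟨v ++ w.map (inst σ), ihs.2 ⟨z, w, v, h1, h2, rfl⟩, by simp [inst]⟩
      · exact Or.inr (iht.2 ⟨z, _, v, h1, h2, h3⟩)

theorem cf_bind {σ : L → Term M} {D : List (Term L)} {a : M} {W : List (Term M)} :
    Cf (D.map (inst σ)) a W ↔ ∃ z D1 v, Cf D z D1 ∧ St (σ z) a v ∧ W = v ++ D1.map (inst σ) := by
  cases D with
  | nil => simp [Cf]
  | cons t R =>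
    simp only [List.map_cons, Cf, st_bind]
    constructor
    · rintro ⟨_, ⟨z, w, v, h1, h2, rfl⟩, rfl⟩
      exact ⟨z, w ++ R, v, ⟨w, h1, rfl⟩, h2, by simp⟩
    · rintro ⟨z, _, v, ⟨w, h1, rfl⟩, h2, rfl⟩
      exact ⟨v ++ w.map (inst σ), ⟨z, w, v, h1, h2, rfl⟩, by simp⟩

end Bind

end Pool.Agent.Helper501.Bpa
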