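import Pool.Agent.Helper501.Bpa.Bridge

namespace Pool.Agent.Helper501.Bpa

open Relation Term

section Main

variable {A : Type*}

/-- validity implies bisimilarity of the open terms, with variables as actions -/
theorem lb_of_valid [Nonempty A] {t u : Term (A ⊕ ℕ)} (h : Valid t u) : LB [t] [u] := by
  obtain ⟨a0⟩ := ‹Nonempty A›
  have hfin : ({D | LR (al (A ⊕ ℕ)) [t] D} ∪ {D | LR (al (A ⊕ ℕ)) [u] D}).Finite :=
    (finite_reach t).union (finite_reach u)
  obtain ⟨M0, hM⟩ := encode (a0 := a0) hfin (by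
    rintro D (hD | hD) z D' hc
    · exact Or.inl (hD.tail ⟨z, trivial, hc⟩)
    · exact Or.inr (hD.tail ⟨z, trivial, hc⟩))
  exact hM [t] (Or.inl ReflTransGen.refl) [u] (Or.inr ReflTransGen.refl) (lb_of_bisim (h _))

/-- the equation number `n` is valid -/
theorem comb_valid_eq (n : ℕ) : Valid (A := A)
    (kstar (comb (atom (Sum.inr 0)) (atom (Sum.inr 1)) n) dead)
    (kstar (plus (atom (Sum.inr 0)) (atom (Sum.inr 1))) dead) := by
  intro ρ
  apply bisim_of_lb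
  have h := comb_valid (ρ 0) (ρ 1) n
  simpa only [inst, inst_comb, close, Sum.elim_inr] using h

theorem osub_atom : osub (fun k => atom (Sum.inr k)) = (atom : A ⊕ ℕ → Term (A ⊕ ℕ)) := by
  funext z
  rcases z with a | k <;> rfl

theorem der_transfer {n : ℕ} (hn : 2 ≤ n) {E : Set (Term (A ⊕ ℕ) × Term (A ⊕ ℕ))}
    (hL : ∀ t u, Der E t u → LB [t] [u])
    (hE : ∀ t u, (t, u) ∈ E → (size t ≤ n ∧ size u ≤ n) ∨
      ((∀ k k', Occ (Sum.inr k) t → Occ (Sum.inr k') t → k = k') ∧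
        (∀ k k', Occ (Sum.inr k) u → Occ (Sum.inr k') u → k = k')))
    {t u : Term (A ⊕ ℕ)} (h : Der E t u) :
    Tf (Sum.inr 0) (Sum.inr 1) n t u ∧ Tf (Sum.inr 0) (Sum.inr 1) n u t := by
  have hxy : (Sum.inr 0 : A ⊕ ℕ) ≠ Sum.inr 1 := by simp
  induction h with
  | @ax t u h τ =>
    have hB : LB [t] [u] := by
      have := hL _ _ (Der.ax (E := E) h (fun k => atom (Sum.inr k)))
      rwa [osub_atom, inst_atom, inst_atom] at this
    have hA : AccOK (Sum.inr 0) (Sum.inr 1) n (osub τ) t ∧ AccOK (Sum.inr 0) (Sum.inr 1) n (osub τ) u := by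
      rcases hE t u h with ⟨h1, h2⟩ | ⟨h1, h2⟩
      · exact ⟨accOK_small h1, accOK_small h2⟩
      · exact ⟨accOK_one (p := 0) (q := 1) (σ := osub τ) (by norm_num) (fun a => rfl) h1,
          accOK_one (p := 0) (q := 1) (σ := osub τ) (by norm_num) (fun a => rfl) h2⟩
    exact ⟨⟨fun hW h => ax_inv hxy hn hB hA.1 hW h, fun hW hI i j h => ax_ty hxy hn hB hA.1 hW hI h⟩,
      ⟨fun hW h => ax_inv hxy hn hB.symm hA.2 hW h, fun hW hI i j h => ax_ty hxy hn hB.symm hA.2 hW hI h⟩⟩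
  | refl t => exact ⟨Tf.refl t, Tf.refl t⟩
  | symm _ ih => exact ⟨ih.2, ih.1⟩
  | trans h1 h2 ih1 ih2 =>
    exact ⟨ih1.1.trans (hL _ _ h1) ih2.1, ih2.2.trans (hL _ _ h2).symm ih1.2⟩
  | plus h1 h2 ih1 ih2 => exact ⟨ih1.1.plus ih2.1, ih1.2.plus ih2.2⟩
  | seq h1 h2 ih1 ih2 => exact ⟨ih1.1.seq (hL _ _ h1) ih2.1, ih1.2.seq (hL _ _ h1).symm ih2.2⟩
  | kstar h1 h2 ih1 ih2 =>
    exact ⟨ih1.1.kstar (hL _ _ h1) (hL _ _ h2) ih2.1, ih1.2.kstar (hL _ _ h1).symm (hL _ _ h2).symm ih2.2⟩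

/-- Main theorem. -/
theorem main [Nonempty A] (E : Set (Term (A ⊕ ℕ) × Term (A ⊕ ℕ))) (hE : IsAxiomatization E) :
    {e ∈ E | ∃ x y : ℕ, x ≠ y ∧ VarIn x e ∧ VarIn y e}.Infinite := by
  intro hfin
  have hL : ∀ t u, Der E t u → LB [t] [u] := fun t u h => lb_of_valid ((hE t u).1 h)
  obtain ⟨B, hB⟩ : ∃ B, ∀ e ∈ {e ∈ E | ∃ x y : ℕ, x ≠ y ∧ VarIn x e ∧ VarIn y e}, size e.1 ≤ B ∧ size e.2 ≤ B := by
    obtain ⟨B, hB⟩ := (hfin.image (fun e => size e.1 + size e.2)).bddAbove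
    refine ⟨B, fun e he => ?_⟩
    have := hB ⟨e, he, rfl⟩
    simp only at this
    omega
  have hn : 2 ≤ B + 2 := by omega
  have hxy : (Sum.inr 0 : A ⊕ ℕ) ≠ Sum.inr 1 := by simp
  have key := der_transfer (n := B + 2) hn hL ?_ ((hE _ _).2 (comb_valid_eq (B + 2 - 1)))
  · refine not_inv_P hxy hn (key.1.1 ?_ (inv_comb hn))
    exact W_of_LB (lb_of_valid (comb_valid_eq (B + 2 - 1))).symm W_P
  · intro t u htu
    by_cases h : ∃ x y : ℕ, x ≠ y ∧ VarIn x (t, u) ∧ VarIn y (t, u)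
    · left
      obtain ⟨h1, h2⟩ := hB (t, u) ⟨htu, h⟩
      exact ⟨by simp only at h1; omega, by simp only at h2; omega⟩
    · right
      push Not at h
      constructor
      · intro k k' h1 h2
        by_contra hne
        exact h k k' hne (Or.inl h1) (Or.inl h2)
      · intro k k' h1 h2
        by_contra hne
        exact h k k' hne (Or.inr h1) (Or.inr h2)

end Main

end Pool.Agent.Helper501.Bpa

namespace Pool.Agent.Helper501.Bpa

open Relation Term

section Congr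

variable {L : Type*}

theorem LB.append {D D' R R' : List (Term L)} (h1 : LB D D') (h2 : LB R R') : LB (D ++ R) (D' ++ R') := by
  refine ⟨fun E E' => ∃ D D' R R', LB D D' ∧ LB R R' ∧ E = D ++ R ∧ E' = D' ++ R', ⟨?_, ?_, ?_⟩,
    D, D', R, R', h1, h2, rfl, rfl⟩
  · rintro _ _ ⟨D, D', R, R', h1, h2, rfl, rfl⟩
    rw [List.append_eq_nil_iff, List.append_eq_nil_iff, h1.nil_iff, h2.nil_iff]
  · rintro _ _ a D1 ⟨D, D', R, R', h1, h2, rfl, rfl⟩ hc
    by_cases hD : D = []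
    · subst hD
      have hD' := h1.nil_iff.1 rfl
      subst hD'
      obtain ⟨R1, h3, h4⟩ := h2.fwd hc
      exact ⟨R1, h3, [], [], D1, R1, LB.refl _, h4, rfl, rfl⟩
    · obtain ⟨E, h3, rfl⟩ := (cf_append hD).1 hc
      obtain ⟨E', h4, h5⟩ := h1.fwd h3
      exact ⟨_, cf_append_right h4 R', E, E', R, R', h5, h2, rfl, rfl⟩
  · rintro _ _ a D1 ⟨D, D', R, R', h1, h2, rfl, rfl⟩ hc
    by_cases hD : D' = []
    · subst hD
      have hD' := h1.nil_iff.2 rfl
      subst hD'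
      obtain ⟨R1, h3, h4⟩ := h2.bwd hc
      exact ⟨R1, h3, [], [], R1, D1, LB.refl _, h4, rfl, rfl⟩
    · obtain ⟨E, h3, rfl⟩ := (cf_append hD).1 hc
      obtain ⟨E', h4, h5⟩ := h1.bwd h3
      exact ⟨_, cf_append_right h4 R, E', E, R, R', h5, h2, rfl, rfl⟩

theorem LB.plus {s s' t t' : Term L} (h1 : LB [s] [s']) (h2 : LB [t] [t']) : LB [plus s t] [plus s' t'] := by
  refine LB.of_step (by simp) ?_ ?_
  · intro a D1 hc
    rw [cf_single] at hc
    rcases hc with hc | hc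
    · obtain ⟨E, h3, h4⟩ := h1.fwd (cf_single.2 hc)
      exact ⟨E, cf_single.2 (Or.inl (cf_single.1 h3)), h4⟩
    · obtain ⟨E, h3, h4⟩ := h2.fwd (cf_single.2 hc)
      exact ⟨E, cf_single.2 (Or.inr (cf_single.1 h3)), h4⟩
  · intro a D1 hc
    rw [cf_single] at hc
    rcases hc with hc | hc
    · obtain ⟨E, h3, h4⟩ := h1.bwd (cf_single.2 hc)
      exact ⟨E, cf_single.2 (Or.inl (cf_single.1 h3)), h4⟩
    · obtain ⟨E, h3, h4⟩ := h2.bwd (cf_single.2 hc)
      exact ⟨E, cf_single.2 (Or.inr (cf_single.1 h3)), h4⟩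

theorem cf_seq {s t : Term L} {a : L} {D : List (Term L)} : Cf [seq s t] a D ↔ Cf ([s] ++ [t]) a D := by
  rw [cf_append (by simp), cf_single]
  simp only [St, cf_single]

theorem lb_seq_pair (s t : Term L) : LB [seq s t] ([s] ++ [t]) :=
  LB.of_step (by simp) (fun _ D1 hc => ⟨D1, cf_seq.1 hc, LB.refl _⟩) (fun _ D1 hc => ⟨D1, cf_seq.2 hc, LB.refl _⟩)

theorem LB.seq {s s' t t' : Term L} (h1 : LB [s] [s']) (h2 : LB [t] [t']) : LB [seq s t] [seq s' t'] :=
  ((lb_seq_pair s t).trans (h1.append h2)).trans (lb_seq_pair s' t').symm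

theorem lb_kstar {s s' t t' : Term L} (h1 : LB [s] [s']) (h2 : LB [t] [t']) : LB [kstar s t] [kstar s' t'] := by
  refine ⟨fun D D' => (∃ w w', LB w w' ∧ D = w ++ [kstar s t] ∧ D' = w' ++ [kstar s' t']) ∨ LB D D',
    ⟨?_, ?_, ?_⟩, Or.inl ⟨[], [], LB.refl _, rfl, rfl⟩⟩
  · rintro D D' (⟨w, w', _, rfl, rfl⟩ | h)
    · simp
    · exact h.nil_iff
  · rintro D D' a D1 (⟨w, w', h, rfl, rfl⟩ | h) hc
    · by_cases hw : w = []
      · subst hw
        have hw' := h.nil_iff.1 rfl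
        subst hw'
        rcases cf_single.1 hc with ⟨v, hv, rfl⟩ | hv
        · obtain ⟨E, h3, h4⟩ := h1.fwd (cf_single.2 hv)
          exact ⟨E ++ [kstar s' t'], cf_single.2 (Or.inl ⟨E, cf_single.1 h3, rfl⟩), Or.inl ⟨v, E, h4, rfl, rfl⟩⟩
        · obtain ⟨E, h3, h4⟩ := h2.fwd (cf_single.2 hv)
          exact ⟨E, cf_single.2 (Or.inr (cf_single.1 h3)), Or.inr h4⟩
      · obtain ⟨E, h3, rfl⟩ := (cf_append hw).1 hc
        obtain ⟨E', h4, h5⟩ := h.fwd h3
        exact ⟨_, cf_append_right h4 _, Or.inl ⟨E, E', h5, rfl, rfl⟩⟩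
    · obtain ⟨E, h3, h4⟩ := h.fwd hc
      exact ⟨E, h3, Or.inr h4⟩
  · rintro D D' a D1 (⟨w, w', h, rfl, rfl⟩ | h) hc
    · by_cases hw : w' = []
      · subst hw
        have hw' := h.nil_iff.2 rfl
        subst hw'
        rcases cf_single.1 hc with ⟨v, hv, rfl⟩ | hv
        · obtain ⟨E, h3, h4⟩ := h1.bwd (cf_single.2 hv)
          exact ⟨E ++ [kstar s t], cf_single.2 (Or.inl ⟨E, cf_single.1 h3, rfl⟩), Or.inl ⟨E, v, h4, rfl, rfl⟩⟩
        · obtain ⟨E, h3, h4⟩ := h2.bwd (cf_single.2 hv)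
          exact ⟨E, cf_single.2 (Or.inr (cf_single.1 h3)), Or.inr h4⟩
      · obtain ⟨E, h3, rfl⟩ := (cf_append hw).1 hc
        obtain ⟨E', h4, h5⟩ := h.bwd h3
        exact ⟨_, cf_append_right h4 _, Or.inl ⟨E', E, h5, rfl, rfl⟩⟩
    · obtain ⟨E, h3, h4⟩ := h.bwd hc
      exact ⟨E, h3, Or.inr h4⟩

theorem inst_inst {L M N : Type*} (σ : L → Term M) (τ : M → Term N) (t : Term L) :
    inst τ (inst σ t) = inst (fun z => inst τ (σ z)) t := by
  induction t with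
  | atom a => rfl
  | dead => rfl
  | plus s t ihs iht => simp only [inst, ihs, iht]
  | seq s t ihs iht => simp only [inst, ihs, iht]
  | kstar s t ihs iht => simp only [inst, ihs, iht]

/-- The set of all valid equations is an axiomatization. -/
theorem axiomatization_valid (A : Type*) : IsAxiomatization {e : Term (A ⊕ ℕ) × Term (A ⊕ ℕ) | Valid e.1 e.2} := by
  intro t u
  constructor
  · intro h
    suffices H : ∀ ρ : ℕ → Term A, LB [inst (close ρ) t] [inst (close ρ) u] from fun ρ => bisim_of_lb (H ρ)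
    induction h with
    | @ax t u h τ =>
      intro ρ
      rw [inst_inst, inst_inst]
      have e : (fun z => inst (close ρ) (osub τ z)) = close (fun k => inst (close ρ) (τ k)) := by
        funext z
        rcases z with a | k <;> rfl
      rw [e]
      exact lb_of_bisim (h _)
    | refl t => exact fun ρ => LB.refl _
    | symm _ ih => exact fun ρ => (ih ρ).symm
    | trans _ _ ih1 ih2 => exact fun ρ => (ih1 ρ).trans (ih2 ρ)
    | plus _ _ ih1 ih2 => exact fun ρ => (ih1 ρ).plus (ih2 ρ)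
    | seq _ _ ih1 ih2 => exact fun ρ => (ih1 ρ).seq (ih2 ρ)
    | kstar _ _ ih1 ih2 => exact fun ρ => lb_kstar (ih1 ρ) (ih2 ρ)
  · intro h
    have := Der.ax (E := {e : Term (A ⊕ ℕ) × Term (A ⊕ ℕ) | Valid e.1 e.2}) (t := t) (u := u) h
      (fun k => atom (Sum.inr k))
    rwa [osub_atom, inst_atom, inst_atom] at this

end Congr

end Pool.Agent.Helper501.Bpa
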