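import Pool.Agent.Helper501.Bpa.Lts

namespace Pool.Agent.Helper501.Bpa

open Relation Term

section Base

variable {L : Type*}

/-- all atoms are live -/
def al (L : Type*) : L → Prop := fun _ => True

/-- the transitions of the reset automaton with `n` phases -/
def F0 (x y : L) {n : ℕ} (a : L) (i j : ZMod n) : Prop := (a = x ∧ j = 0) ∨ (a = y ∧ j = i + 1)

/-- exactly the atoms `x` and `y` are enabled -/
def Compl (x y : L) (D : List (Term L)) : Prop :=
  (∃ D', Cf D x D') ∧ (∃ D', Cf D y D') ∧ ∀ a D', Cf D a D' → a = x ∨ a = y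

/-- all proper derivatives are complete -/
def W (x y : L) (t : Term L) : Prop := ∀ D, PLR (al L) [t] D → D ≠ [] → Compl x y D

/-- all proper derivatives can terminate -/
def IL (t : Term L) : Prop := ∀ D, PLR (al L) [t] D → CTL (al L) D

variable {x y : L}

theorem Compl.of_append {D R : List (Term L)} (h : Compl x y (D ++ R)) (hD : D ≠ []) : Compl x y D := by
  obtain ⟨⟨D1, h1⟩, ⟨D2, h2⟩, h3⟩ := h
  obtain ⟨E1, h1, _⟩ := (cf_append hD).1 h1
  obtain ⟨E2, h2, _⟩ := (cf_append hD).1 h2
  exact ⟨⟨E1, h1⟩, ⟨E2, h2⟩, fun a D' h => h3 a _ (cf_append_right h R)⟩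

theorem W.plus_left {s t : Term L} (h : W x y (plus s t)) : W x y s := fun D hD => h D (plr_plus_left hD)
theorem W.plus_right {s t : Term L} (h : W x y (plus s t)) : W x y t := fun D hD => h D (plr_plus_right hD)
theorem W.seq_left {s t : Term L} (h : W x y (seq s t)) : W x y s :=
  fun D hD hn => (h _ (plr_seq hD) (by simp [hn])).of_append hn
theorem W.seq_right {s t : Term L} (h : W x y (seq s t)) (hs : CT (al L) s) : W x y t :=
  fun D hD => h D (plr_seq_right hs hD)
theorem W.seq_compl {s t : Term L} (h : W x y (seq s t)) (hs : CT (al L) s) : Compl x y [t] :=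
  h _ (plr_seq_mid hs) (by simp)
theorem W.kstar_left {s t : Term L} (h : W x y (kstar s t)) : W x y s :=
  fun D hD hn => (h _ (plr_star hD) (by simp [hn])).of_append hn
theorem W.kstar_right {s t : Term L} (h : W x y (kstar s t)) : W x y t := fun D hD => h D (plr_star_right hD)
theorem W.kstar_compl {s t : Term L} (h : W x y (kstar s t)) (hs : CT (al L) s) : Compl x y [kstar s t] :=
  h _ (plr_star_self hs) (by simp)

theorem IL.plus_left {s t : Term L} (h : IL (plus s t)) : IL s := fun D hD => h D (plr_plus_left hD)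
theorem IL.plus_right {s t : Term L} (h : IL (plus s t)) : IL t := fun D hD => h D (plr_plus_right hD)
theorem IL.seq_left {s t : Term L} (h : IL (seq s t)) : IL s :=
  fun _ hD => (CTL_append.1 (h _ (plr_seq hD))).1
theorem IL.seq_right {s t : Term L} (h : IL (seq s t)) (hs : CT (al L) s) : IL t :=
  fun D hD => h D (plr_seq_right hs hD)
theorem IL.kstar_left {s t : Term L} (h : IL (kstar s t)) : IL s :=
  fun _ hD => (CTL_append.1 (h _ (plr_star hD))).1
theorem IL.kstar_right {s t : Term L} (h : IL (kstar s t)) : IL t := fun D hD => h D (plr_star_right hD)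

theorem F0_det (hxy : x ≠ y) {n : ℕ} : ∀ a, al L a → ∀ i j j' : ZMod n, F0 x y a i j → F0 x y a i j' → j = j' := by
  rintro a - i j j' (⟨h1, h2⟩ | ⟨h1, h2⟩) (⟨h3, h4⟩ | ⟨h3, h4⟩)
  · rw [h2, h4]
  · exact absurd (h1.symm.trans h3) hxy
  · exact absurd (h3.symm.trans h1) hxy
  · rw [h2, h4]

theorem F0_x (hxy : x ≠ y) {n : ℕ} {i j : ZMod n} (h : F0 x y x i j) : j = 0 := by
  rcases h with h | h
  · exact h.2
  · exact absurd h.1 hxy

theorem F0_y (hxy : x ≠ y) {n : ℕ} {i j : ZMod n} (h : F0 x y y i j) : j = i + 1 := by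
  rcases h with h | h
  · exact absurd h.1.symm hxy
  · exact h.2

/-- a term with an `x` step has only one output phase -/
theorem out_unique (hxy : x ≠ y) {n : ℕ} {u : Term L} (hI : IL u) {i j i' j' : ZMod n}
    (h : Ty (al L) (F0 x y) u i j) (h' : Ty (al L) (F0 x y) u i' j') {v : List (Term L)} (hv : St u x v) : j = j' := by
  obtain ⟨k, h1, h2⟩ := h.step trivial hv
  obtain ⟨k', h1', h2'⟩ := h'.step trivial hv
  rw [F0_x hxy h1] at h2
  rw [F0_x hxy h1'] at h2'
  exact tyL_det (F0_det hxy) (hI v (TransGen.single ⟨x, trivial, cf_single.2 hv⟩)) h2 h2'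

/-- the key lemma on terms with two different input phases -/
theorem two_phases (hxy : x ≠ y) {n : ℕ} (hn : 2 ≤ n) {u : Term L} (hW : W x y u) (hI : IL u)
    {i j i' j' : ZMod n} (h : Ty (al L) (F0 x y) u i j) (h' : Ty (al L) (F0 x y) u i' j') (hne : i ≠ i')
    {v : List (Term L)} (hv : St u y v) : v = [] := by
  induction u generalizing i j i' j' v with
  | atom a => exact hv.2
  | dead => exact absurd hv (by simp [St])
  | plus s t ihs iht =>
    rcases hv with hv | hv
    · exact ihs hW.plus_left hI.plus_left h.1 h'.1 hne hv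
    · exact iht hW.plus_right hI.plus_right h.2 h'.2 hne hv
  | seq s t ihs iht =>
    exfalso
    obtain ⟨m, h1, h2⟩ := h
    obtain ⟨m', h1', h2'⟩ := h'
    obtain ⟨w, h3, rfl⟩ := hv
    obtain rfl := ihs hW.seq_left hI.seq_left h1 h1' hne h3
    have hc : CT (al L) s := CT_of_St (live := al L) trivial h3 CTL_nil
    obtain ⟨k, h4, h5⟩ := h1.step (live := al L) trivial h3
    obtain ⟨k', h4', h5'⟩ := h1'.step (live := al L) trivial h3
    have e1 : m = i + 1 := by
      have : k = m := h5
      rw [← this]; exact F0_y hxy h4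
    have e2 : m' = i' + 1 := by
      have : k' = m' := h5'
      rw [← this]; exact F0_y hxy h4'
    have hm : m ≠ m' := by
      rw [e1, e2]; intro h; exact hne (add_right_cancel h)
    have hIt := hI.seq_right hc
    obtain ⟨⟨D1, c1⟩, ⟨D2, c2⟩, _⟩ := hW.seq_compl hc
    rw [cf_single] at c1 c2
    obtain rfl := iht (hW.seq_right hc) hIt (h2 hc) (h2' hc) hm c2
    have e3 := out_unique hxy hIt (h2 hc) (h2' hc) c1
    obtain ⟨k1, h6, h7⟩ := (h2 hc).step (live := al L) trivial c2
    obtain ⟨k1', h6', h7'⟩ := (h2' hc).step (live := al L) trivial c2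
    have e4 : j = m + 1 := by
      have : k1 = j := h7
      rw [← this]; exact F0_y hxy h6
    have e5 : j' = m' + 1 := by
      have : k1' = j' := h7'
      rw [← this]; exact F0_y hxy h6'
    rw [e4, e5] at e3
    exact hm (add_right_cancel e3)
  | kstar s t ihs iht =>
    rcases hv with ⟨w, h3, rfl⟩ | hv
    · exfalso
      obtain rfl := ihs hW.kstar_left hI.kstar_left h.1 h'.1 hne h3
      obtain ⟨k, h4, h5⟩ := h.1.step (live := al L) trivial h3
      have e1 : i = i + 1 := by
        have : k = i := h5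
        rw [← F0_y hxy h4, this]
      have e2 : (1 : ZMod n) = 0 := by
        have := add_left_cancel (a := i) (b := 0) (c := 1) (by rw [add_zero]; exact e1)
        exact this.symm
      haveI : Fact (1 < n) := ⟨by omega⟩
      exact one_ne_zero e2
    · exact iht hW.kstar_right hI.kstar_right h.2 h'.2 hne hv

/-- a live star body which is typed from a phase to itself, with a dead exit -/
def Loop (x y : L) (n : ℕ) (s t : Term L) : Prop :=
  (∀ a w, ¬ St t a w) ∧ CT (al L) s ∧ IL s ∧ ∃ i : ZMod n, Ty (al L) (F0 x y) s i i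

/-- the invariant -/
def Inv (x y : L) (n : ℕ) : Term L → Prop
  | atom _ => False
  | dead => False
  | plus s t => Inv x y n s ∨ Inv x y n t
  | seq s t => Inv x y n s ∨ (CT (al L) s ∧ Inv x y n t)
  | kstar s t => Inv x y n s ∨ Inv x y n t ∨ Loop x y n s t

end Base

end Pool.Agent.Helper501.Bpa

namespace Pool.Agent.Helper501.Bpa

open Relation Term

section Abs

variable {L : Type*} {n : ℕ} {live : L → Prop} {F : L → ZMod n → ZMod n → Prop}

/-- atoms acting as a shift of the phase which can be typed from two different phases -/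
def Yl (live : L → Prop) (F : L → ZMod n → ZMod n → Prop) (z : L) : Prop :=
  live z ∧ (∀ i j, F z i j → j = i + 1) ∧ ∃ i j i' j', F z i j ∧ F z i' j' ∧ i ≠ i'

/-- steps along such atoms -/
def Ys (live : L → Prop) (F : L → ZMod n → ZMod n → Prop) (D' D : List (Term L)) : Prop :=
  ∃ z, Yl live F z ∧ Cf D z D'

/-- two input phases are only possible for shifts -/
def Sharp (F : L → ZMod n → ZMod n → Prop) (z : L) : Prop :=
  ∀ k1 k1' k2 k2', F z k1 k1' → F z k2 k2' → k1 ≠ k2 → ∀ i j, F z i j → j = i + 1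

theorem Sharp.inj {z : L} (h : Sharp F z) {i i' k : ZMod n} (h1 : F z i k) (h2 : F z i' k) : i = i' := by
  by_contra hne
  have e1 := h _ _ _ _ h1 h2 hne _ _ h1
  have e2 := h _ _ _ _ h1 h2 hne _ _ h2
  exact hne (add_right_cancel (e1.symm.trans e2))

/-- enabled sharp live atoms -/
def Hs (live : L → Prop) (F : L → ZMod n → ZMod n → Prop) (D : List (Term L)) : Prop :=
  ∃ z D', live z ∧ Cf D z D' ∧ Sharp F z

/-- uniqueness of phases -/
theorem uniq {D1 : List (Term L)} (hacc : Acc (Ys live F) D1) :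
    ∀ D2 k1 k2 j, LB D1 D2 → (∀ D, LR live D1 D → D ≠ [] → Hs live F D) →
    TyL live F D1 k1 j → TyL live F D2 k2 j → k1 = k2 := by
  induction hacc with
  | intro D1 _ ih =>
    intro D2 k1 k2 j hB hH h1 h2
    by_cases hD : D1 = []
    · subst hD
      rw [hB.nil_iff.1 rfl] at h2
      have e1 : k1 = j := h1
      have e2 : k2 = j := h2
      rw [e1, e2]
    · by_contra hne
      obtain ⟨z, D1', hz, hD1, hS⟩ := hH D1 ReflTransGen.refl hD
      obtain ⟨D2', hD2, hB'⟩ := hB.fwd hD1
      obtain ⟨k1', h3, h4⟩ := h1.step hz hD1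
      obtain ⟨k2', h5, h6⟩ := h2.step hz hD2
      have hY := hS _ _ _ _ h3 h5 hne
      have e := ih D1' ⟨z, ⟨hz, hY, _, _, _, _, h3, h5, hne⟩, hD1⟩ D2' k1' k2' j hB'
        (fun D hr => hH D (ReflTransGen.head ⟨z, hz, hD1⟩ hr)) h4 h6
      rw [hY _ _ h3, hY _ _ h5] at e
      exact hne (add_right_cancel e)

/-- from phases of configurations to typing -/
theorem sem_typing (hF : ∀ a, ¬ live a → ∀ i j j', F a i j → F a i j') :
    ∀ (t : Term L) (R : List (Term L)) (i : ZMod n) (Ph : List (Term L) → ZMod n),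
    (∀ z w, live z → St t z w → F z i (Ph (w ++ R))) →
    (∀ D, PLR live [t] D → D ≠ [] → ∀ z D', live z → Cf D z D' → F z (Ph (D ++ R)) (Ph (D' ++ R))) →
    (∀ D, LR live [t] D → ∀ z D', Cf D z D' → ¬ live z → ∀ i j, F z i j) →
    (∀ D, PLR live [t] D → D ≠ [] → Hs live F D) →
    Ty live F t i (Ph R) := by
  intro t
  induction t with
  | atom a =>
    intro R i Ph h1 _ h3 _
    by_cases ha : live a
    · exact h1 a [] ha ⟨rfl, rfl⟩
    · exact h3 [atom a] ReflTransGen.refl a [] (cf_single.2 ⟨rfl, rfl⟩) ha _ _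
  | dead => intro R i Ph _ _ _ _; trivial
  | plus s t ihs iht =>
    intro R i Ph h1 h2 h3 h4
    refine ⟨ihs R i Ph (fun z w hz hw => h1 z w hz (Or.inl hw)) (fun D hD => h2 D (plr_plus_left hD)) ?_
      (fun D hD => h4 D (plr_plus_left hD)), iht R i Ph (fun z w hz hw => h1 z w hz (Or.inr hw))
      (fun D hD => h2 D (plr_plus_right hD)) ?_ (fun D hD => h4 D (plr_plus_right hD))⟩
    · intro D hD z D' hc
      rcases lr_cases hD with rfl | hD
      · exact h3 _ ReflTransGen.refl z D' (by rw [cf_single] at *; exact Or.inl hc)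
      · exact h3 D (plr_plus_left hD).to_reflTransGen z D' hc
    · intro D hD z D' hc
      rcases lr_cases hD with rfl | hD
      · exact h3 _ ReflTransGen.refl z D' (by rw [cf_single] at *; exact Or.inr hc)
      · exact h3 D (plr_plus_right hD).to_reflTransGen z D' hc
  | seq s t ihs iht =>
    intro R i Ph h1 h2 h3 h4
    refine ⟨Ph (t :: R), ihs (t :: R) i Ph ?_ ?_ ?_ ?_, fun hc => iht R (Ph (t :: R)) Ph ?_ ?_ ?_ ?_⟩
    · intro z w hz hw
      have := h1 z (w ++ [t]) hz ⟨w, hw, rfl⟩
      simpa using this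
    · intro D hD hn z D' hz hc
      have := h2 (D ++ [t]) (plr_seq hD) (by simp) z (D' ++ [t]) hz (cf_append_right hc _)
      simpa using this
    · intro D hD z D' hc
      rcases lr_cases hD with rfl | hD
      · rw [cf_single] at hc
        exact h3 _ ReflTransGen.refl z (D' ++ [t]) (cf_single.2 ⟨D', hc, rfl⟩)
      · exact h3 _ (plr_seq (t := t) hD).to_reflTransGen z (D' ++ [t]) (cf_append_right hc _)
    · intro D hD hn
      obtain ⟨z, D', hz, hc, hS⟩ := h4 _ (plr_seq (t := t) hD) (by simp)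
      obtain ⟨E, h5, _⟩ := (cf_append hn).1 hc
      exact ⟨z, E, hz, h5, hS⟩
    · intro z w hz hw
      exact h2 [t] (plr_seq_mid hc) (by simp) z w hz (cf_single.2 hw)
    · intro D hD; exact h2 D (plr_seq_right hc hD)
    · intro D hD
      rcases lr_cases hD with rfl | hD
      · exact h3 _ (plr_seq_mid hc).to_reflTransGen
      · exact h3 _ (plr_seq_right hc hD).to_reflTransGen
    · intro D hD; exact h4 D (plr_seq_right hc hD)
  | kstar s t ihs iht =>
    intro R i Ph h1 h2 h3 h4
    have key : Ty live F s i (Ph (kstar s t :: R)) := by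
      refine ihs (kstar s t :: R) i Ph ?_ ?_ ?_ ?_
      · intro z w hz hw
        have := h1 z (w ++ [kstar s t]) hz (Or.inl ⟨w, hw, rfl⟩)
        simpa using this
      · intro D hD hn z D' hz hc
        have := h2 (D ++ [kstar s t]) (plr_star hD) (by simp) z (D' ++ [kstar s t]) hz (cf_append_right hc _)
        simpa using this
      · intro D hD z D' hc
        rcases lr_cases hD with rfl | hD
        · rw [cf_single] at hc
          exact h3 _ ReflTransGen.refl z (D' ++ [kstar s t]) (cf_single.2 (Or.inl ⟨D', hc, rfl⟩))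
        · exact h3 _ (plr_star (t := t) hD).to_reflTransGen z (D' ++ [kstar s t]) (cf_append_right hc _)
      · intro D hD hn
        obtain ⟨z, D', hz, hc, hS⟩ := h4 _ (plr_star (t := t) hD) (by simp)
        obtain ⟨E, h5, _⟩ := (cf_append hn).1 hc
        exact ⟨z, E, hz, h5, hS⟩
    refine ⟨?_, iht R i Ph (fun z w hz hw => h1 z w hz (Or.inr hw)) (fun D hD => h2 D (plr_star_right hD)) ?_
      (fun D hD => h4 D (plr_star_right hD))⟩
    · by_cases hc : CT live s
      · obtain ⟨z, D', hz, h5, hS⟩ := h4 [kstar s t] (plr_star_self hc) (by simp)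
        have e1 := h1 z D' hz (cf_single.1 h5)
        have e2 := h2 [kstar s t] (plr_star_self hc) (by simp) z D' hz h5
        have e3 := hS.inj e1 e2
        have e4 : Ph (kstar s t :: R) = i := by simpa using e3.symm
        rw [e4] at key
        exact key
      · exact ty_of_not_ct hF hc key
    · intro D hD z D' hc
      rcases lr_cases hD with rfl | hD
      · exact h3 _ ReflTransGen.refl z D' (by rw [cf_single] at *; exact Or.inr hc)
      · exact h3 D (plr_star_right hD).to_reflTransGen z D' hc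

open Classical in
/-- a phase function for configurations bisimilar to typed configurations from a set `S` -/
theorem exists_phase {S : List (Term L) → Prop} {j : ZMod n}
    (hS : ∀ D D', S D → Sl live D D' → S D')
    (hH : ∀ D, S D → D ≠ [] → Hs live F D)
    (hacc : ∀ D k, S D → TyL live F D k j → Acc (Ys live F) D) :
    ∃ Ph : List (Term L) → ZMod n, Ph [] = j ∧ ∀ D D' k, S D → LB D D' → TyL live F D k j → Ph D' = k := by
  have hu : ∀ D D1 D' k k1, S D → S D1 → LB D D' → LB D1 D' → TyL live F D k j → TyL live F D1 k1 j → k = k1 := by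
    intro D D1 D' k k1 h1 h2 h3 h4 h5 h6
    refine uniq (hacc D k h1 h5) D1 k k1 j (h3.trans h4.symm) ?_ h5 h6
    intro E hE
    have hSE : S E := by
      induction hE with
      | refl => exact h1
      | tail _ h ih => exact hS _ _ ih h
    exact hH E hSE
  refine ⟨fun D' => if h : ∃ k, ∃ D, S D ∧ LB D D' ∧ TyL live F D k j then h.choose else j, ?_, ?_⟩
  · beta_reduce
    split_ifs with h
    · obtain ⟨D, _, h2, h3⟩ := h.choose_spec
      rw [h2.nil_iff.2 rfl] at h3
      exact h3
    · rfl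
  · intro D D' k h1 h2 h3
    have h : ∃ k, ∃ D, S D ∧ LB D D' ∧ TyL live F D k j := ⟨k, D, h1, h2, h3⟩
    simp only [dif_pos h]
    obtain ⟨D1, h4, h5, h6⟩ := h.choose_spec
    exact (hu D D1 D' k _ h1 h4 h2 h5 h3 h6).symm

/-- typing transfers along bisimilarity -/
theorem ty_transfer (hF : ∀ a, ¬ live a → ∀ i j j', F a i j → F a i j') {l l' : Term L} (hB : LB [l] [l'])
    {i j : ZMod n} (h : Ty live F l i j)
    (hH : ∀ D, PLR live [l] D → D ≠ [] → Hs live F D)
    (h3 : ∀ D, LR live [l] D → ∀ z D', Cf D z D' → ¬ live z → ∀ i j, F z i j)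
    (hacc : ∀ D k, PLR live [l] D → TyL live F D k j → Acc (Ys live F) D) :
    Ty live F l' i j := by
  obtain ⟨Ph, hP0, hP⟩ := exists_phase (live := live) (F := F) (S := fun D => PLR live [l] D) (j := j)
    (fun D D' h1 h2 => h1.tail h2) hH hacc
  have hT : TyL live F [l] i j := ⟨j, h, fun _ => rfl⟩
  have hreach : ∀ D', PLR live [l'] D' → ∃ D k, PLR live [l] D ∧ LB D D' ∧ TyL live F D k j := by
    intro D' h1
    induction h1 with
    | single h1 =>
      obtain ⟨a, ha, h1⟩ := h1
      obtain ⟨D, h2, h3⟩ := hB.bwd h1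
      obtain ⟨k, _, h5⟩ := hT.step ha h2
      exact ⟨D, k, TransGen.single ⟨a, ha, h2⟩, h3, h5⟩
    | tail _ h1 ih =>
      obtain ⟨D, k, h2, h3, h4⟩ := ih
      obtain ⟨a, ha, h1⟩ := h1
      obtain ⟨D1, h5, h6⟩ := h3.bwd h1
      obtain ⟨k1, _, h7⟩ := h4.step ha h5
      exact ⟨D1, k1, h2.tail ⟨a, ha, h5⟩, h6, h7⟩
  have key := sem_typing (live := live) (F := F) hF l' [] i Ph ?_ ?_ ?_ ?_
  · rwa [hP0] at key
  · intro z w hz hw
    obtain ⟨w0, h4, h5⟩ := hB.bwd (cf_single.2 hw)
    obtain ⟨k, h6, h7⟩ := hT.step hz h4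
    rw [List.append_nil, hP w0 w k (TransGen.single ⟨z, hz, h4⟩) h5 h7]
    exact h6
  · intro D' hD' _ z D1' hz hc
    obtain ⟨D, k, h4, h5, h6⟩ := hreach D' hD'
    obtain ⟨D1, h7, h8⟩ := h5.bwd hc
    obtain ⟨k1, h9, h10⟩ := h6.step hz h7
    rw [List.append_nil, List.append_nil, hP D D' k h4 h5 h6, hP D1 D1' k1 (h4.tail ⟨z, hz, h7⟩) h8 h10]
    exact h9
  · intro D' hD' z D1' hc hz
    obtain ⟨D, h4, h5⟩ := hB.symm.lr hD'
    obtain ⟨D1, h6, _⟩ := h5.fwd hc
    exact h3 D h4 z D1 h6 hz
  · intro D' hD' hn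
    obtain ⟨D, h4, h5⟩ := hB.symm.plr hD'
    obtain ⟨z, D1, hz, h6, hS⟩ := hH D h4 (fun h => hn (h5.nil_iff.2 h))
    obtain ⟨D1', h7, _⟩ := h5.bwd h6
    exact ⟨z, D1', hz, h7, hS⟩

end Abs

end Pool.Agent.Helper501.Bpa

namespace Pool.Agent.Helper501.Bpa

open Relation Term

section Find

variable {L : Type*} {n : ℕ} {live : L → Prop} {F : L → ZMod n → ZMod n → Prop}

theorem lr_nil {D : List (Term L)} (h : LR live [] D) : D = [] := by
  rcases lr_cases h with rfl | h
  · rfl
  · obtain ⟨E, ⟨a, _, h1⟩, _⟩ := plr_iff.1 h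
    exact absurd h1 (by simp [Cf])

/-- `kstar s r` occurs accessibly in the term -/
def AccS (live : L → Prop) : Term L → Term L → Term L → Prop
  | atom _, _, _ => False
  | dead, _, _ => False
  | plus s t, a, b => AccS live s a b ∨ AccS live t a b
  | seq s t, a, b => AccS live s a b ∨ (CT live s ∧ AccS live t a b)
  | kstar s t, a, b => AccS live s a b ∨ AccS live t a b ∨ (a = s ∧ b = t)

theorem plr_star_cases {s t : Term L} {D : List (Term L)} (h : PLR live [kstar s t] D) :
    (∃ D1, PLR live [s] D1 ∧ D1 ≠ [] ∧ D = D1 ++ [kstar s t]) ∨ (CT live s ∧ D = [kstar s t]) ∨ PLR live [t] D := by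
  have base : ∀ D', Sl live [kstar s t] D' →
      (∃ D1, PLR live [s] D1 ∧ D1 ≠ [] ∧ D' = D1 ++ [kstar s t]) ∨ (CT live s ∧ D' = [kstar s t]) ∨ PLR live [t] D' := by
    rintro D' ⟨a, ha, h1⟩
    rw [cf_single] at h1
    rcases h1 with ⟨v, h1, rfl⟩ | h1
    · by_cases hv : v = []
      · subst hv
        exact Or.inr (Or.inl ⟨CT_of_St ha h1 CTL_nil, rfl⟩)
      · exact Or.inl ⟨v, TransGen.single ⟨a, ha, cf_single.2 h1⟩, hv, rfl⟩
    · exact Or.inr (Or.inr (TransGen.single ⟨a, ha, cf_single.2 h1⟩))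
  induction h with
  | single h => exact base _ h
  | tail _ h ih =>
    rcases ih with ⟨D1, h1, h2, rfl⟩ | ⟨h1, rfl⟩ | h1
    · obtain ⟨a, ha, h⟩ := h
      obtain ⟨E, h3, rfl⟩ := (cf_append h2).1 h
      have h4 : PLR live [s] E := h1.tail ⟨a, ha, h3⟩
      by_cases hE : E = []
      · subst hE
        exact Or.inr (Or.inl ⟨ctl_single.1 (CTL_of_LR h4.to_reflTransGen CTL_nil), rfl⟩)
      · exact Or.inl ⟨E, h4, hE, rfl⟩
    · exact base _ h
    · exact Or.inr (Or.inr (h1.tail h))

/-- hypotheses on a configuration for finding a star -/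
structure Hyp (live : L → Prop) (F : L → ZMod n → ZMod n → Prop) (D0 : List (Term L))
    (Ph : List (Term L) → ZMod n) : Prop where
  nt : ¬ CTL live D0
  hP : ∀ D, LR live D0 D → ∀ z D', live z → Cf D z D' → F z (Ph D) (Ph D')
  hH : ∀ D, LR live D0 D → D ≠ [] → Hs live F D
  h3 : ∀ D, LR live D0 D → ∀ z D', Cf D z D' → ¬ live z → ∀ i j, F z i j

theorem Hyp.lr {D0 D : List (Term L)} {Ph : List (Term L) → ZMod n} (h : Hyp live F D0 Ph) (hD : LR live D0 D) :
    Hyp live F D Ph :=
  ⟨fun hc => h.nt (CTL_of_LR hD hc), fun E hE => h.hP E (hD.trans hE), fun E hE => h.hH E (hD.trans hE),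
    fun E hE => h.h3 E (hD.trans hE)⟩

theorem Hyp.left {D1 R : List (Term L)} {Ph : List (Term L) → ZMod n} (h : Hyp live F (D1 ++ R) Ph)
    (hD : ¬ CTL live D1) : Hyp live F D1 (fun D => Ph (D ++ R)) := by
  refine ⟨hD, ?_, ?_, ?_⟩
  · intro D hr z D' hz hc
    exact h.hP _ (LR.append hr R) z _ hz (cf_append_right hc R)
  · intro D hr hn
    obtain ⟨z, D', hz, hc, hS⟩ := h.hH _ (LR.append hr R) (by simp [hn])
    obtain ⟨E, h5, _⟩ := (cf_append hn).1 hc
    exact ⟨z, E, hz, h5, hS⟩
  · intro D hr z D' hc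
    exact h.h3 _ (LR.append hr R) z _ (cf_append_right hc R)

/-- conclusion: an accessible star -/
def Concl (live : L → Prop) (F : L → ZMod n → ZMod n → Prop) (t : Term L) (D0 : List (Term L)) : Prop :=
  ∃ s r R, AccS live t s r ∧ (∀ z w, St r z w → ¬ live z) ∧ CT live s ∧
    (∀ D, PLR live [s] D → CTL live D) ∧ (∃ i, Ty live F s i i) ∧ LR live D0 (kstar s r :: R)

theorem Concl.of_lr {t : Term L} {D0 D : List (Term L)} (hD : LR live D0 D) (h : Concl live F t D) :
    Concl live F t D0 := by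
  obtain ⟨s, r, R, h1, h2, h3, h4, h5, h6⟩ := h
  exact ⟨s, r, R, h1, h2, h3, h4, h5, hD.trans h6⟩

theorem Concl.append {t : Term L} {D : List (Term L)} (h : Concl live F t D) (R : List (Term L)) :
    Concl live F t (D ++ R) := by
  obtain ⟨s, r, R1, h1, h2, h3, h4, h5, h6⟩ := h
  exact ⟨s, r, R1 ++ R, h1, h2, h3, h4, h5, LR.append h6 R⟩

theorem Concl.mono {t t' : Term L} {D : List (Term L)} (h : Concl live F t D)
    (ht : ∀ s r, AccS live t s r → AccS live t' s r) : Concl live F t' D := by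
  obtain ⟨s, r, R1, h1, h2⟩ := h
  exact ⟨s, r, R1, ht _ _ h1, h2⟩

theorem lift_concl {t : Term L} (h : ∀ D0 Ph, PLR live [t] D0 → Hyp live F D0 Ph → Concl live F t D0) :
    ∀ D0 Ph, LR live [t] D0 → Hyp live F D0 Ph → Concl live F t D0 := by
  intro D0 Ph h1 h2
  rcases lr_cases h1 with rfl | h1
  · obtain ⟨z, D', hz, hc, _⟩ := h2.hH _ ReflTransGen.refl (by simp)
    have h3 : Sl live [t] D' := ⟨z, hz, hc⟩
    exact (h D' Ph (TransGen.single h3) (h2.lr (ReflTransGen.single h3))).of_lr (ReflTransGen.single h3)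
  · exact h D0 Ph h1 h2

theorem find_star (hF : ∀ a, ¬ live a → ∀ i j j', F a i j → F a i j') :
    ∀ (t : Term L) (D0 : List (Term L)) (Ph : List (Term L) → ZMod n),
    PLR live [t] D0 → Hyp live F D0 Ph → Concl live F t D0 := by
  intro t
  induction t with
  | atom a =>
    intro D0 Ph h1 h2
    exfalso
    obtain ⟨E, ⟨z, _, h3⟩, h4⟩ := plr_iff.1 h1
    rw [cf_single] at h3
    rw [h3.2] at h4
    rw [lr_nil h4] at h2
    exact h2.nt CTL_nil
  | dead =>
    intro D0 Ph h1 h2
    exfalso
    obtain ⟨E, ⟨z, _, h3⟩, h4⟩ := plr_iff.1 h1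
    rw [cf_single] at h3
    exact h3
  | plus s t ihs iht =>
    intro D0 Ph h1 h2
    rcases plr_plus_cases h1 with h1 | h1
    · exact (ihs D0 Ph h1 h2).mono (fun _ _ h => Or.inl h)
    · exact (iht D0 Ph h1 h2).mono (fun _ _ h => Or.inr h)
  | seq s t ihs iht =>
    intro D0 Ph h1 h2
    rcases plr_seq_cases h1 with ⟨D1, h3, h4, rfl⟩ | ⟨h3, h4⟩
    · by_cases hc : CTL live D1
      · have h5 : LR live (D1 ++ [t]) ([] ++ [t]) := LR.append (LR_of_CTL hc) [t]
        have hs : CT live s := ctl_single.1 (CTL_of_LR h3.to_reflTransGen hc)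
        exact ((lift_concl iht [t] Ph ReflTransGen.refl (h2.lr h5)).of_lr h5).mono (fun _ _ h => Or.inr ⟨hs, h⟩)
      · exact ((ihs D1 _ h3 (h2.left hc)).append [t]).mono (fun _ _ h => Or.inl h)
    · exact (lift_concl iht D0 Ph h4 h2).mono (fun _ _ h => Or.inr ⟨h3, h⟩)
  | kstar s t ihs iht =>
    have key : ∀ Ph, Hyp live F [kstar s t] Ph → Concl live F (kstar s t) [kstar s t] := by
      intro Ph h2
      by_cases ht : ∃ z w, live z ∧ St t z w
      · obtain ⟨z, w, hz, hw⟩ := ht
        have h3 : Sl live [kstar s t] w := ⟨z, hz, cf_single.2 (Or.inr hw)⟩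
        have h4 : PLR live [t] w := TransGen.single ⟨z, hz, cf_single.2 hw⟩
        exact ((iht w Ph h4 (h2.lr (ReflTransGen.single h3))).of_lr (ReflTransGen.single h3)).mono
          (fun _ _ h => Or.inr (Or.inl h))
      · push Not at ht
        obtain ⟨z, D', hz, hc, _⟩ := h2.hH _ ReflTransGen.refl (by simp)
        rw [cf_single] at hc
        rcases hc with ⟨v, hv, rfl⟩ | hc
        · by_cases hs : ∀ D1, PLR live [s] D1 → CTL live D1
          · have hcs : CT live s :=
              CT_of_St hz hv (hs v (TransGen.single ⟨z, hz, cf_single.2 hv⟩))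
            refine ⟨s, t, [], Or.inr (Or.inr ⟨rfl, rfl⟩), fun z w h1 h3 => ht z w h3 h1, hcs, hs,
              ⟨Ph [kstar s t], ?_⟩, ReflTransGen.refl⟩
            refine sem_typing hF s [kstar s t] (Ph [kstar s t]) Ph ?_ ?_ ?_ ?_
            · intro z w hz hw
              exact h2.hP _ ReflTransGen.refl z _ hz (cf_single.2 (Or.inl ⟨w, hw, rfl⟩))
            · intro D hD hn z D' hz hc
              exact h2.hP _ (plr_star hD).to_reflTransGen z _ hz (cf_append_right hc _)
            · intro D hD z D' hc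
              rcases lr_cases hD with rfl | hD
              · rw [cf_single] at hc
                exact h2.h3 _ ReflTransGen.refl z (D' ++ [kstar s t]) (cf_single.2 (Or.inl ⟨D', hc, rfl⟩))
              · exact h2.h3 _ (plr_star (t := t) hD).to_reflTransGen z (D' ++ [kstar s t]) (cf_append_right hc _)
            · intro D hD hn
              obtain ⟨z, D', hz, hc, hS⟩ := h2.hH _ (plr_star (t := t) hD).to_reflTransGen (by simp)
              obtain ⟨E, h5, _⟩ := (cf_append hn).1 hc
              exact ⟨z, E, hz, h5, hS⟩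
          · push Not at hs
            obtain ⟨D1, h3, h4⟩ := hs
            have h5 : LR live [kstar s t] (D1 ++ [kstar s t]) := (plr_star h3).to_reflTransGen
            exact (((ihs D1 _ h3 ((h2.lr h5).left h4)).append [kstar s t]).of_lr h5).mono (fun _ _ h => Or.inl h)
        · exact absurd hc (ht z D' hz)
    intro D0 Ph h1 h2
    rcases plr_star_cases h1 with ⟨D1, h3, h4, rfl⟩ | ⟨h3, rfl⟩ | h3
    · by_cases hc : CTL live D1
      · have h5 : LR live (D1 ++ [kstar s t]) ([] ++ [kstar s t]) := LR.append (LR_of_CTL hc) _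
        exact (key Ph (h2.lr h5)).of_lr h5
      · exact ((ihs D1 _ h3 (h2.left hc)).append _).mono (fun _ _ h => Or.inl h)
    · exact key Ph h2
    · exact (iht D0 Ph h3 h2).mono (fun _ _ h => Or.inr (Or.inl h))

end Find

end Pool.Agent.Helper501.Bpa
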