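import Pool.Agent.Helper501.Bpa.Phase

namespace Pool.Agent.Helper501.Bpa

open Relation Term

section Inst

variable {L M : Type*} {n : ℕ} {x y : M} {σ : L → Term M}

/-- liveness of an atom after instantiation -/
abbrev lv (σ : L → Term M) : L → Prop := fun z => CT (al M) (σ z)

/-- typing of an atom after instantiation -/
abbrev FF (x y : M) (n : ℕ) (σ : L → Term M) : L → ZMod n → ZMod n → Prop := fun z => Ty (al M) (F0 x y) (σ z)

theorem FF_nonlive (a : L) (ha : ¬ lv σ a) (i j j' : ZMod n) (h : FF x y n σ a i j) : FF x y n σ a i j' :=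
  ty_of_not_ct (fun a ha => absurd trivial ha) ha h

theorem no_step_of_not {u : Term M} (h : ∀ a v, ¬ St u a v) : ¬ CT (al M) u := by
  intro hc
  obtain ⟨E, ⟨a, _, h1⟩, _⟩ := plr_iff.1 (PLR_of_CT hc)
  exact h a E (cf_single.1 h1)

theorem plr_internal {D D' : List (Term L)} {z : L} (hc : Cf D z D') {v : List (Term M)}
    (hv : PLR (al M) [σ z] v) : PLR (al M) (D.map (inst σ)) (v ++ D'.map (inst σ)) := by
  induction hv with
  | single h =>
    obtain ⟨a, _, h⟩ := h
    exact TransGen.single ⟨a, trivial, cf_bind.2 ⟨z, D', _, hc, cf_single.1 h, rfl⟩⟩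
  | tail _ h ih => exact ih.tail (h.append _)

theorem sl_inst {D D' : List (Term L)} (h : Sl (lv σ) D D') : PLR (al M) (D.map (inst σ)) (D'.map (inst σ)) := by
  obtain ⟨z, hz, hc⟩ := h
  simpa using plr_internal hc (PLR_of_CT hz)

theorem lr_inst {D D' : List (Term L)} (h : LR (lv σ) D D') : LR (al M) (D.map (inst σ)) (D'.map (inst σ)) := by
  induction h with
  | refl => exact ReflTransGen.refl
  | tail _ h ih => exact ih.trans (sl_inst h).to_reflTransGen

theorem plr_inst {D D' : List (Term L)} (h : PLR (lv σ) D D') : PLR (al M) (D.map (inst σ)) (D'.map (inst σ)) := by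
  obtain ⟨E, h1, h2⟩ := plr_iff.1 h
  exact (sl_inst h1).trans_left (lr_inst h2)

/-- proper derivatives of an instance -/
theorem plr_inst_cases {s : Term L} {D : List (Term M)} (h : PLR (al M) [inst σ s] D) :
    ∃ D2 z D1 v, LR (lv σ) [s] D2 ∧ Cf D2 z D1 ∧ PLR (al M) [σ z] v ∧ D = v ++ D1.map (inst σ) := by
  induction h with
  | single h =>
    obtain ⟨a, _, h⟩ := h
    obtain ⟨z, w, v, h1, h2, rfl⟩ := st_bind.1 (cf_single.1 h)
    exact ⟨[s], z, w, v, ReflTransGen.refl, cf_single.2 h1, TransGen.single ⟨a, trivial, cf_single.2 h2⟩, rfl⟩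
  | tail _ h ih =>
    obtain ⟨D2, z, D1, v, h1, h2, h3, rfl⟩ := ih
    obtain ⟨a, ha, h⟩ := h
    by_cases hv : v = []
    · subst hv
      rw [List.nil_append] at h
      obtain ⟨z', D1', v', h4, h5, rfl⟩ := cf_bind.1 h
      have hz : lv σ z := ctl_single.1 (CTL_of_LR h3.to_reflTransGen CTL_nil)
      exact ⟨D1, z', D1', v', h1.tail ⟨z, hz, h2⟩, h4, TransGen.single ⟨a, trivial, cf_single.2 h5⟩, rfl⟩
    · obtain ⟨v', h4, rfl⟩ := (cf_append hv).1 h
      exact ⟨D2, z, D1, v', h1, h2, h3.tail ⟨a, ha, h4⟩, rfl⟩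

/-- good atoms: live and internally live, or without steps -/
def Gd (x y : M) (σ : L → Term M) (z : L) : Prop :=
  W x y (σ z) ∧ IL (σ z) ∧ (¬ lv σ z → ∀ a v, ¬ St (σ z) a v)

theorem W_atom {l : Term L} (hW : W x y (inst σ l)) {D D' : List (Term L)} (hD : LR (lv σ) [l] D) {z : L}
    (hc : Cf D z D') : W x y (σ z) := by
  intro v hv hn
  exact (hW _ ((plr_internal hc hv).trans_right (lr_inst hD)) (by simp [hn])).of_append hn

theorem IL_atom {l : Term L} (hI : IL (inst σ l)) {D D' : List (Term L)} (hD : LR (lv σ) [l] D) {z : L}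
    (hc : Cf D z D') : IL (σ z) ∧ (¬ lv σ z → ∀ a v, ¬ St (σ z) a v) := by
  have h1 : IL (σ z) := by
    intro v hv
    exact (CTL_append.1 (hI _ ((plr_internal hc hv).trans_right (lr_inst hD)))).1
  refine ⟨h1, fun hz a v hv => hz ?_⟩
  exact CT_of_St (live := al M) trivial hv (h1 v (TransGen.single ⟨a, trivial, cf_single.2 hv⟩))

theorem hs_of_compl (hxy : x ≠ y) (hn : 2 ≤ n) {D : List (Term L)} (hc : Compl x y (D.map (inst σ)))
    (hG : ∀ z D', Cf D z D' → Gd x y σ z) : Hs (lv σ) (FF x y n σ) D := by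
  obtain ⟨_, ⟨E, hE⟩, _⟩ := hc
  obtain ⟨z, D', v, h1, h2, rfl⟩ := cf_bind.1 hE
  obtain ⟨g1, g2, g3⟩ := hG z D' h1
  have hz : lv σ z := by
    by_contra hz
    exact g3 hz _ _ h2
  refine ⟨z, D', hz, h1, ?_⟩
  intro k1 k1' k2 k2' h3 h4 hne i j hij
  have hv := two_phases hxy hn g1 g2 h3 h4 hne h2
  subst hv
  obtain ⟨k, h5, h6⟩ := Ty.step hij (live := al M) trivial h2
  have : k = j := h6
  rw [← this]
  exact F0_y hxy h5

end Inst

section Small

variable {L : Type*} {n : ℕ}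

def size : Term L → ℕ
  | atom _ => 1
  | dead => 0
  | plus s t => size s + size t
  | seq s t => size s + size t
  | kstar s t => size s + size t + 1

/-- all star bodies have size less than `n` -/
def Small (n : ℕ) : Term L → Prop
  | atom _ => True
  | dead => True
  | plus s t => Small n s ∧ Small n t
  | seq s t => Small n s ∧ Small n t
  | kstar s t => size s < n ∧ Small n s ∧ Small n t

theorem small_of_size {t : Term L} (h : size t ≤ n) : Small n t := by
  induction t with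
  | atom a => trivial
  | dead => trivial
  | plus s t ihs iht => simp only [size] at h; exact ⟨ihs (by omega), iht (by omega)⟩
  | seq s t ihs iht => simp only [size] at h; exact ⟨ihs (by omega), iht (by omega)⟩
  | kstar s t ihs iht => simp only [size] at h; exact ⟨by omega, ihs (by omega), iht (by omega)⟩

theorem small_step {t : Term L} (h : Small n t) {a : L} {w : List (Term L)} (hw : St t a w) : ∀ u ∈ w, Small n u := by
  induction t generalizing w with
  | atom b => rw [hw.2]; simp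
  | dead => exact absurd hw (by simp [St])
  | plus s t ihs iht =>
    rcases hw with hw | hw
    · exact ihs h.1 hw
    · exact iht h.2 hw
  | seq s t ihs iht =>
    obtain ⟨v, h1, rfl⟩ := hw
    intro u hu
    rw [List.mem_append, List.mem_singleton] at hu
    rcases hu with hu | rfl
    · exact ihs h.1 h1 u hu
    · exact h.2
  | kstar s t ihs iht =>
    rcases hw with ⟨v, h1, rfl⟩ | hw
    · intro u hu
      rw [List.mem_append, List.mem_singleton] at hu
      rcases hu with hu | rfl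
      · exact ihs h.2.1 h1 u hu
      · exact h
    · exact iht h.2.2 hw

theorem small_lr {live : L → Prop} {D D' : List (Term L)} (hD : LR live D D') (h : ∀ u ∈ D, Small n u) :
    ∀ u ∈ D', Small n u := by
  induction hD with
  | refl => exact h
  | @tail E E' _ h1 ih =>
    obtain ⟨a, _, h1⟩ := h1
    cases E with
    | nil => exact absurd h1 (by simp [Cf])
    | cons t R =>
      obtain ⟨w, h2, rfl⟩ := h1
      intro u hu
      rw [List.mem_append] at hu
      rcases hu with hu | hu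
      · exact small_step (ih t (by simp)) h2 u hu
      · exact ih u (by simp [hu])

variable {live : L → Prop} {F : L → ZMod n → ZMod n → Prop}

/-- termination through shifts -/
def YT (live : L → Prop) (F : L → ZMod n → ZMod n → Prop) : Term L → Prop
  | atom z => Yl live F z
  | dead => False
  | plus s t => YT live F s ∨ YT live F t
  | seq s t => YT live F s ∧ YT live F t
  | kstar _ t => YT live F t

theorem YT.ct {t : Term L} (h : YT live F t) : CT live t := by
  induction t with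
  | atom z => exact h.1
  | dead => exact h
  | plus s t ihs iht => exact h.imp ihs iht
  | seq s t ihs iht => exact ⟨ihs h.1, iht h.2⟩
  | kstar s t ihs iht => exact iht h

theorem YT.len {t : Term L} (h : YT live F t) :
    ∃ m : ℕ, 1 ≤ m ∧ m ≤ size t ∧ ∀ i j, Ty live F t i j → j = i + (m : ZMod n) := by
  induction t with
  | atom z => exact ⟨1, le_rfl, le_rfl, fun i j hij => by rw [Nat.cast_one]; exact h.2.1 i j hij⟩
  | dead => exact absurd h (by simp [YT])
  | plus s t ihs iht =>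
    rcases h with h | h
    · obtain ⟨m, h1, h2, h3⟩ := ihs h
      exact ⟨m, h1, by simp only [size]; omega, fun i j hij => h3 i j hij.1⟩
    · obtain ⟨m, h1, h2, h3⟩ := iht h
      exact ⟨m, h1, by simp only [size]; omega, fun i j hij => h3 i j hij.2⟩
  | seq s t ihs iht =>
    obtain ⟨m, h1, h2, h3⟩ := ihs h.1
    obtain ⟨m', h1', h2', h3'⟩ := iht h.2
    refine ⟨m + m', by omega, by simp only [size]; omega, ?_⟩
    rintro i j ⟨k, h4, h5⟩
    rw [h3' _ _ (h5 h.1.ct), h3 _ _ h4]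
    push_cast
    ring
  | kstar s t ihs iht =>
    obtain ⟨m, h1, h2, h3⟩ := iht h
    exact ⟨m, h1, by simp only [size]; omega, fun i j hij => h3 i j hij.2⟩

theorem acc_cons {t : Term L} (hS : Small n t) {i j : ZMod n} (hT : Ty live F t i j) {R : List (Term L)}
    (hR : YT live F t → Acc (Ys live F) R) : Acc (Ys live F) (t :: R) := by
  induction t generalizing i j R with
  | atom a =>
    constructor
    rintro D ⟨z, hz, w, hw, rfl⟩
    obtain ⟨rfl, rfl⟩ := hw
    exact hR hz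
  | dead =>
    constructor
    rintro D ⟨z, hz, w, hw, rfl⟩
    exact absurd hw (by simp [St])
  | plus s t ihs iht =>
    have h1 := ihs hS.1 hT.1 (R := R) (fun h => hR (Or.inl h))
    have h2 := iht hS.2 hT.2 (R := R) (fun h => hR (Or.inr h))
    constructor
    rintro D ⟨z, hz, w, hw, rfl⟩
    rcases hw with hw | hw
    · exact h1.inv ⟨z, hz, w, hw, rfl⟩
    · exact h2.inv ⟨z, hz, w, hw, rfl⟩
  | seq s t ihs iht =>
    obtain ⟨m, h1, h2⟩ := hT
    have h3 := ihs hS.1 h1 (R := t :: R) (fun hs => iht hS.2 (h2 hs.ct) (fun ht => hR ⟨hs, ht⟩))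
    constructor
    rintro D ⟨z, hz, w, ⟨v, hw, rfl⟩, rfl⟩
    exact h3.inv ⟨z, hz, v, hw, by simp⟩
  | kstar s t ihs iht =>
    have hno : ¬ YT live F s := by
      intro h
      obtain ⟨m, h1, h2, h3⟩ := h.len
      have h4 := h3 i i hT.1
      have h5 : ((m : ℕ) : ZMod n) = 0 := by
        have : i + 0 = i + (m : ZMod n) := by rw [add_zero]; exact h4
        exact (add_left_cancel this).symm
      rw [ZMod.natCast_eq_zero_iff] at h5
      have := Nat.le_of_dvd (by omega) h5
      have := hS.1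
      omega
    have h1 := ihs hS.2.1 hT.1 (R := kstar s t :: R) (fun h => absurd h hno)
    have h2 := iht hS.2.2 hT.2 (R := R) hR
    constructor
    rintro D ⟨z, hz, w, hw, rfl⟩
    rcases hw with ⟨v, hw, rfl⟩ | hw
    · exact h1.inv ⟨z, hz, v, hw, by simp⟩
    · exact h2.inv ⟨z, hz, w, hw, rfl⟩

theorem acc_list {D : List (Term L)} (hS : ∀ u ∈ D, Small n u) {i j : ZMod n} (hT : TyL live F D i j) :
    Acc (Ys live F) D := by
  induction D generalizing i with
  | nil =>
    constructor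
    rintro D ⟨z, hz, hw⟩
    exact absurd hw (by simp [Cf])
  | cons t R ih =>
    obtain ⟨m, h1, h2⟩ := hT
    exact acc_cons (hS t (by simp)) h1 (fun h => ih (fun u hu => hS u (by simp [hu])) (h2 h.ct))

end Small

section Occ

variable {L : Type*}

theorem occ_step {t : Term L} {z : L} {w : List (Term L)} (h : St t z w) :
    Occ z t ∧ ∀ u ∈ w, ∀ a, Occ a u → Occ a t := by
  induction t generalizing w with
  | atom b =>
    obtain ⟨rfl, rfl⟩ := h
    exact ⟨rfl, by simp⟩
  | dead => exact absurd h (by simp [St])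
  | plus s t ihs iht =>
    rcases h with h | h
    · exact ⟨Or.inl (ihs h).1, fun u hu a ha => Or.inl ((ihs h).2 u hu a ha)⟩
    · exact ⟨Or.inr (iht h).1, fun u hu a ha => Or.inr ((iht h).2 u hu a ha)⟩
  | seq s t ihs iht =>
    obtain ⟨v, h, rfl⟩ := h
    refine ⟨Or.inl (ihs h).1, fun u hu a ha => ?_⟩
    rw [List.mem_append, List.mem_singleton] at hu
    rcases hu with hu | rfl
    · exact Or.inl ((ihs h).2 u hu a ha)
    · exact Or.inr ha
  | kstar s t ihs iht =>
    rcases h with ⟨v, h, rfl⟩ | h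
    · refine ⟨Or.inl (ihs h).1, fun u hu a ha => ?_⟩
      rw [List.mem_append, List.mem_singleton] at hu
      rcases hu with hu | rfl
      · exact Or.inl ((ihs h).2 u hu a ha)
      · exact ha
    · exact ⟨Or.inr (iht h).1, fun u hu a ha => Or.inr ((iht h).2 u hu a ha)⟩

theorem occ_cf {D D' : List (Term L)} {z : L} (h : Cf D z D') :
    (∃ u ∈ D, Occ z u) ∧ ∀ u ∈ D', ∀ a, Occ a u → ∃ u' ∈ D, Occ a u' := by
  cases D with
  | nil => exact absurd h (by simp [Cf])
  | cons t R =>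
    obtain ⟨w, h1, rfl⟩ := h
    obtain ⟨h2, h3⟩ := occ_step h1
    refine ⟨⟨t, by simp, h2⟩, fun u hu a ha => ?_⟩
    rw [List.mem_append] at hu
    rcases hu with hu | hu
    · exact ⟨t, by simp, h3 u hu a ha⟩
    · exact ⟨u, by simp [hu], ha⟩

theorem occ_lr {live : L → Prop} {l : Term L} {D : List (Term L)} (h : LR live [l] D) :
    ∀ u ∈ D, ∀ a, Occ a u → Occ a l := by
  induction h with
  | refl => intro u hu a ha; rw [List.mem_singleton] at hu; rwa [hu] at ha
  | tail _ h ih =>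
    obtain ⟨z, _, h⟩ := h
    intro u hu a ha
    obtain ⟨u', h1, h2⟩ := (occ_cf h).2 u hu a ha
    exact ih u' h1 a h2

theorem occ_enabled {live : L → Prop} {l : Term L} {D D' : List (Term L)} (h : LR live [l] D) {z : L}
    (hc : Cf D z D') : Occ z l := by
  obtain ⟨u, h1, h2⟩ := (occ_cf hc).1
  exact occ_lr h u h1 z h2

end Occ

end Pool.Agent.Helper501.Bpa

namespace Pool.Agent.Helper501.Bpa

open Relation Term

section AccAtoms

variable {L : Type*} {live : L → Prop}

/-- the atom is accessible -/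
def AccL (live : L → Prop) : Term L → L → Prop
  | atom b, a => a = b
  | dead, _ => False
  | plus s t, a => AccL live s a ∨ AccL live t a
  | seq s t, a => AccL live s a ∨ (CT live s ∧ AccL live t a)
  | kstar s t, a => AccL live s a ∨ AccL live t a

theorem accL_of_step {t : Term L} {z : L} {w : List (Term L)} (h : St t z w) : AccL live t z := by
  induction t generalizing w with
  | atom b => exact h.1
  | dead => exact h
  | plus s t ihs iht => exact h.imp ihs iht
  | seq s t ihs iht => obtain ⟨v, h, _⟩ := h; exact Or.inl (ihs h)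
  | kstar s t ihs iht =>
    rcases h with ⟨v, h, _⟩ | h
    · exact Or.inl (ihs h)
    · exact Or.inr (iht h)

theorem accL_iff {l : Term L} {z : L} : AccL live l z ↔ ∃ D D', LR live [l] D ∧ Cf D z D' := by
  constructor
  · intro h
    induction l with
    | atom b => exact ⟨[atom b], [], ReflTransGen.refl, cf_single.2 ⟨h, rfl⟩⟩
    | dead => exact absurd h (by simp [AccL])
    | plus s t ihs iht =>
      rcases h with h | h
      · obtain ⟨D, D', h1, h2⟩ := ihs h
        rcases lr_cases h1 with rfl | h1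
        · exact ⟨_, D', ReflTransGen.refl, cf_single.2 (Or.inl (cf_single.1 h2))⟩
        · exact ⟨D, D', (plr_plus_left h1).to_reflTransGen, h2⟩
      · obtain ⟨D, D', h1, h2⟩ := iht h
        rcases lr_cases h1 with rfl | h1
        · exact ⟨_, D', ReflTransGen.refl, cf_single.2 (Or.inr (cf_single.1 h2))⟩
        · exact ⟨D, D', (plr_plus_right h1).to_reflTransGen, h2⟩
    | seq s t ihs iht =>
      rcases h with h | ⟨hc, h⟩
      · obtain ⟨D, D', h1, h2⟩ := ihs h
        rcases lr_cases h1 with rfl | h1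
        · exact ⟨_, D' ++ [t], ReflTransGen.refl, cf_single.2 ⟨D', cf_single.1 h2, rfl⟩⟩
        · exact ⟨D ++ [t], D' ++ [t], (plr_seq h1).to_reflTransGen, cf_append_right h2 _⟩
      · obtain ⟨D, D', h1, h2⟩ := iht h
        exact ⟨D, D', (plr_seq_mid hc).to_reflTransGen.trans h1, h2⟩
    | kstar s t ihs iht =>
      rcases h with h | h
      · obtain ⟨D, D', h1, h2⟩ := ihs h
        rcases lr_cases h1 with rfl | h1
        · exact ⟨_, D' ++ [kstar s t], ReflTransGen.refl, cf_single.2 (Or.inl ⟨D', cf_single.1 h2, rfl⟩)⟩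
        · exact ⟨D ++ [kstar s t], D' ++ [kstar s t], (plr_star h1).to_reflTransGen, cf_append_right h2 _⟩
      · obtain ⟨D, D', h1, h2⟩ := iht h
        rcases lr_cases h1 with rfl | h1
        · exact ⟨_, D', ReflTransGen.refl, cf_single.2 (Or.inr (cf_single.1 h2))⟩
        · exact ⟨D, D', (plr_star_right h1).to_reflTransGen, h2⟩
  · rintro ⟨D, D', h1, h2⟩
    rcases lr_cases h1 with rfl | h1
    · exact accL_of_step (cf_single.1 h2)
    · induction l generalizing D D' with
      | atom b =>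
        exfalso
        obtain ⟨E, ⟨a, _, h3⟩, h4⟩ := plr_iff.1 h1
        rw [cf_single] at h3
        rw [h3.2] at h4
        rw [lr_nil h4] at h2
        exact h2
      | dead =>
        exfalso
        obtain ⟨E, ⟨a, _, h3⟩, h4⟩ := plr_iff.1 h1
        exact cf_single.1 h3
      | plus s t ihs iht =>
        rcases plr_plus_cases h1 with h1 | h1
        · exact Or.inl (ihs D D' h1.to_reflTransGen h2 h1)
        · exact Or.inr (iht D D' h1.to_reflTransGen h2 h1)
      | seq s t ihs iht =>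
        rcases plr_seq_cases h1 with ⟨D1, h3, h4, rfl⟩ | ⟨h3, h4⟩
        · obtain ⟨E, h5, _⟩ := (cf_append h4).1 h2
          exact Or.inl (ihs D1 E h3.to_reflTransGen h5 h3)
        · rcases lr_cases h4 with rfl | h5
          · exact Or.inr ⟨h3, accL_of_step (cf_single.1 h2)⟩
          · exact Or.inr ⟨h3, iht D D' h4 h2 h5⟩
      | kstar s t ihs iht =>
        rcases plr_star_cases h1 with ⟨D1, h3, h4, rfl⟩ | ⟨h3, rfl⟩ | h3
        · obtain ⟨E, h5, _⟩ := (cf_append h4).1 h2
          exact Or.inl (ihs D1 E h3.to_reflTransGen h5 h3)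
        · exact accL_of_step (live := live) (cf_single.1 h2)
        · exact Or.inr (iht D D' h3.to_reflTransGen h2 h3)

theorem accS_plr {l s t : Term L} (h : AccS live l s t) (hc : CT live s) : ∃ R, PLR live [l] (kstar s t :: R) := by
  induction l with
  | atom b => exact absurd h (by simp [AccS])
  | dead => exact absurd h (by simp [AccS])
  | plus a b iha ihb =>
    rcases h with h | h
    · obtain ⟨R, h⟩ := iha h; exact ⟨R, plr_plus_left h⟩
    · obtain ⟨R, h⟩ := ihb h; exact ⟨R, plr_plus_right h⟩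
  | seq a b iha ihb =>
    rcases h with h | ⟨h1, h⟩
    · obtain ⟨R, h⟩ := iha h; exact ⟨R ++ [b], plr_seq h⟩
    · obtain ⟨R, h⟩ := ihb h; exact ⟨R, plr_seq_right h1 h⟩
  | kstar a b iha ihb =>
    rcases h with h | h | ⟨rfl, rfl⟩
    · obtain ⟨R, h⟩ := iha h; exact ⟨R ++ [kstar a b], plr_star h⟩
    · obtain ⟨R, h⟩ := ihb h; exact ⟨R, plr_star_right h⟩
    · exact ⟨[], plr_star_self hc⟩

end AccAtoms

section InvInst

variable {L M : Type*} {n : ℕ} {x y : M} {σ : L → Term M}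

theorem inv_inst_iff {l : Term L} : Inv x y n (inst σ l) ↔
    (∃ z, AccL (lv σ) l z ∧ Inv x y n (σ z)) ∨ (∃ s t, AccS (lv σ) l s t ∧ Loop x y n (inst σ s) (inst σ t)) := by
  induction l with
  | atom b =>
    constructor
    · intro h; exact Or.inl ⟨b, rfl, h⟩
    · rintro (⟨z, h1, h2⟩ | ⟨s, t, h1, _⟩)
      · have : z = b := h1
        subst this; exact h2
      · exact absurd h1 (by simp [AccS])
  | dead =>
    constructor
    · intro h; exact absurd h (by simp [inst, Inv])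
    · rintro (⟨z, h1, h2⟩ | ⟨s, t, h1, _⟩)
      · exact absurd h1 (by simp [AccL])
      · exact absurd h1 (by simp [AccS])
  | plus a b iha ihb =>
    constructor
    · rintro (h | h)
      · rcases iha.1 h with ⟨z, h1, h2⟩ | ⟨s, t, h1, h2⟩
        · exact Or.inl ⟨z, Or.inl h1, h2⟩
        · exact Or.inr ⟨s, t, Or.inl h1, h2⟩
      · rcases ihb.1 h with ⟨z, h1, h2⟩ | ⟨s, t, h1, h2⟩
        · exact Or.inl ⟨z, Or.inr h1, h2⟩
        · exact Or.inr ⟨s, t, Or.inr h1, h2⟩
    · rintro (⟨z, h1 | h1, h2⟩ | ⟨s, t, h1 | h1, h2⟩)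
      · exact Or.inl (iha.2 (Or.inl ⟨z, h1, h2⟩))
      · exact Or.inr (ihb.2 (Or.inl ⟨z, h1, h2⟩))
      · exact Or.inl (iha.2 (Or.inr ⟨s, t, h1, h2⟩))
      · exact Or.inr (ihb.2 (Or.inr ⟨s, t, h1, h2⟩))
  | seq a b iha ihb =>
    constructor
    · rintro (h | ⟨h0, h⟩)
      · rcases iha.1 h with ⟨z, h1, h2⟩ | ⟨s, t, h1, h2⟩
        · exact Or.inl ⟨z, Or.inl h1, h2⟩
        · exact Or.inr ⟨s, t, Or.inl h1, h2⟩
      · rcases ihb.1 h with ⟨z, h1, h2⟩ | ⟨s, t, h1, h2⟩
        · exact Or.inl ⟨z, Or.inr ⟨ct_bind.1 h0, h1⟩, h2⟩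
        · exact Or.inr ⟨s, t, Or.inr ⟨ct_bind.1 h0, h1⟩, h2⟩
    · rintro (⟨z, h1 | ⟨h0, h1⟩, h2⟩ | ⟨s, t, h1 | ⟨h0, h1⟩, h2⟩)
      · exact Or.inl (iha.2 (Or.inl ⟨z, h1, h2⟩))
      · exact Or.inr ⟨ct_bind.2 h0, ihb.2 (Or.inl ⟨z, h1, h2⟩)⟩
      · exact Or.inl (iha.2 (Or.inr ⟨s, t, h1, h2⟩))
      · exact Or.inr ⟨ct_bind.2 h0, ihb.2 (Or.inr ⟨s, t, h1, h2⟩)⟩
  | kstar a b iha ihb =>
    constructor
    · rintro (h | h | h)
      · rcases iha.1 h with ⟨z, h1, h2⟩ | ⟨s, t, h1, h2⟩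
        · exact Or.inl ⟨z, Or.inl h1, h2⟩
        · exact Or.inr ⟨s, t, Or.inl h1, h2⟩
      · rcases ihb.1 h with ⟨z, h1, h2⟩ | ⟨s, t, h1, h2⟩
        · exact Or.inl ⟨z, Or.inr h1, h2⟩
        · exact Or.inr ⟨s, t, Or.inr (Or.inl h1), h2⟩
      · exact Or.inr ⟨a, b, Or.inr (Or.inr ⟨rfl, rfl⟩), h⟩
    · rintro (⟨z, h1 | h1, h2⟩ | ⟨s, t, h1 | h1 | ⟨rfl, rfl⟩, h2⟩)
      · exact Or.inl (iha.2 (Or.inl ⟨z, h1, h2⟩))
      · exact Or.inr (Or.inl (ihb.2 (Or.inl ⟨z, h1, h2⟩)))
      · exact Or.inl (iha.2 (Or.inr ⟨s, t, h1, h2⟩))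
      · exact Or.inr (Or.inl (ihb.2 (Or.inr ⟨s, t, h1, h2⟩)))
      · exact Or.inr (Or.inr h2)

end InvInst

section Axioms

variable {L M : Type*} {n : ℕ} {x y : M} {σ : L → Term M}

/-- Accessibility condition for typed configurations -/
def AccOK (x y : M) (n : ℕ) (σ : L → Term M) (l : Term L) : Prop :=
  ∀ D k j, LR (lv σ) [l] D → (D ≠ [] → Compl x y (D.map (inst σ))) → (∀ z D', Cf D z D' → Gd x y σ z) →
    TyL (lv σ) (FF x y n σ) D k j → Acc (Ys (lv σ) (FF x y n σ)) D

theorem ax_ty (hxy : x ≠ y) (hn : 2 ≤ n) {l l' : Term L} (hB : LB [l] [l']) (hA : AccOK x y n σ l)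
    (hW : W x y (inst σ l)) (hI : IL (inst σ l)) {i j : ZMod n}
    (h : Ty (al M) (F0 x y) (inst σ l) i j) : Ty (al M) (F0 x y) (inst σ l') i j := by
  rw [ty_bind] at h ⊢
  have hG : ∀ D, LR (lv σ) [l] D → ∀ z D', Cf D z D' → Gd x y σ z :=
    fun D hD z D' hc => ⟨W_atom hW hD hc, (IL_atom hI hD hc).1, (IL_atom hI hD hc).2⟩
  have hC : ∀ D, PLR (lv σ) [l] D → D ≠ [] → Compl x y (D.map (inst σ)) :=
    fun D hD hn => hW _ (plr_inst hD) (by simp [hn])
  refine ty_transfer FF_nonlive hB h ?_ ?_ ?_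
  · intro D hD hn'
    exact hs_of_compl hxy hn (hC D hD hn') (hG D hD.to_reflTransGen)
  · intro D hD z D' hc hz i j
    exact ty_of_no_step ((hG D hD z D' hc).2.2 hz) i j
  · intro D k hD hT
    exact hA D k j hD.to_reflTransGen (hC D hD) (hG D hD.to_reflTransGen) hT

theorem ax_inv (hxy : x ≠ y) (hn : 2 ≤ n) {l l' : Term L} (hB : LB [l] [l']) (hA : AccOK x y n σ l)
    (hW : W x y (inst σ l)) (h : Inv x y n (inst σ l)) : Inv x y n (inst σ l') := by
  rw [inv_inst_iff] at h ⊢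
  rcases h with ⟨z, h1, h2⟩ | ⟨s, t, h1, h2, h3, h4, i0, h5⟩
  · left
    refine ⟨z, ?_, h2⟩
    obtain ⟨D, D1, h3, h4⟩ := accL_iff.1 h1
    obtain ⟨D', h5, h6⟩ := hB.lr h3
    obtain ⟨D1', h7, _⟩ := h6.fwd h4
    exact accL_iff.2 ⟨D', D1', h5, h7⟩
  · right
    have hcs : CT (lv σ) s := ct_bind.1 h3
    obtain ⟨R, hR⟩ := accS_plr h1 hcs
    have hnt : ∀ z w, St t z w → ∀ a v, ¬ St (σ z) a v := fun z w hw a v hv =>
      h2 a _ (st_bind.2 ⟨z, w, v, hw, hv, rfl⟩)
    have hntl : ∀ z w, St t z w → ¬ lv σ z := fun z w hw => no_step_of_not (hnt z w hw)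
    have hct : ¬ CT (lv σ) t := fun hc => no_step_of_not h2 (ct_bind.2 hc)
    have hS : ∀ D, LR (lv σ) (kstar s t :: R) D →
        D = kstar s t :: R ∨ ∃ D1, PLR (lv σ) [s] D1 ∧ D1 ≠ [] ∧ D = D1 ++ kstar s t :: R := by
      intro D hD
      rcases lr_append_cases (D1 := [kstar s t]) (D2 := R) hD with ⟨D1, h6, h7, rfl⟩ | ⟨h6, _⟩
      · rcases lr_cases h6 with rfl | h6
        · exact Or.inl rfl
        · rcases plr_star_cases h6 with ⟨D2, h8, h9, rfl⟩ | ⟨_, rfl⟩ | h8
          · exact Or.inr ⟨D2, h8, h9, by simp⟩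
          · exact Or.inl rfl
          · exfalso
            obtain ⟨E, ⟨z, hz, h9⟩, _⟩ := plr_iff.1 h8
            exact hntl z E (cf_single.1 h9) hz
      · exact absurd (ctl_single.1 h6) hct
    have hPR : ∀ D, LR (lv σ) (kstar s t :: R) D → PLR (lv σ) [l] D := fun D hD => hR.trans_left hD
    have hG : ∀ D, LR (lv σ) (kstar s t :: R) D → ∀ z D', Cf D z D' → Gd x y σ z := by
      intro D hD z D' hc
      refine ⟨W_atom hW (hPR D hD).to_reflTransGen hc, ?_⟩
      rcases hS D hD with rfl | ⟨D1, h6, h7, rfl⟩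
      · obtain ⟨w, hw, _⟩ := hc
        rcases hw with ⟨v, hv, _⟩ | hw
        · exact IL_atom h4 (ReflTransGen.refl (a := [s])) (cf_single.2 hv)
        · refine ⟨?_, fun _ => hnt z w hw⟩
          intro D2 hD2
          obtain ⟨E, ⟨a, _, h9⟩, _⟩ := plr_iff.1 hD2
          exact absurd (cf_single.1 h9) (hnt z w hw a E)
      · obtain ⟨E, h8, _⟩ := (cf_append h7).1 hc
        exact IL_atom h4 h6.to_reflTransGen h8
    have hC : ∀ D, LR (lv σ) (kstar s t :: R) D → D ≠ [] → Compl x y (D.map (inst σ)) :=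
      fun D hD hn => hW _ (plr_inst (hPR D hD)) (by simp [hn])
    have hHs : ∀ D, LR (lv σ) (kstar s t :: R) D → D ≠ [] → Hs (lv σ) (FF x y n σ) D :=
      fun D hD hn' => hs_of_compl hxy hn (hC D hD hn') (hG D hD)
    have hT0 : TyL (lv σ) (FF x y n σ) (kstar s t :: R) i0 0 := by
      refine ⟨0, ⟨ty_bind.1 h5, ty_bind.1 (ty_of_no_step h2 _ _)⟩, fun hc => absurd hc hct⟩
    obtain ⟨Ph, _, hPh⟩ := exists_phase (live := lv σ) (F := FF x y n σ)
      (S := fun D => LR (lv σ) (kstar s t :: R) D) (j := 0) (fun D D' h6 h7 => h6.tail h7) hHs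
      (fun D k hD hT => hA D k 0 (hPR D hD).to_reflTransGen (hC D hD) (hG D hD) hT)
    obtain ⟨D0', hD0', hB0⟩ := hB.plr hR
    have hreach : ∀ D', LR (lv σ) D0' D' → ∃ D k, LR (lv σ) (kstar s t :: R) D ∧ LB D D' ∧
        TyL (lv σ) (FF x y n σ) D k 0 := by
      intro D' hD'
      induction hD' with
      | refl => exact ⟨_, i0, ReflTransGen.refl, hB0, hT0⟩
      | tail _ h7 ih =>
        obtain ⟨D, k, h8, h9, h10⟩ := ih
        obtain ⟨a, ha, h7⟩ := h7
        obtain ⟨D1, h11, h12⟩ := h9.bwd h7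
        obtain ⟨k1, _, h13⟩ := h10.step ha h11
        exact ⟨D1, k1, h8.tail ⟨a, ha, h11⟩, h12, h13⟩
    have hG' : ∀ D', LR (lv σ) D0' D' → ∀ z D1', Cf D' z D1' → Gd x y σ z := by
      intro D' hD' z D1' hc
      obtain ⟨D, k, h8, h9, _⟩ := hreach D' hD'
      obtain ⟨D1, h11, _⟩ := h9.bwd hc
      exact hG D h8 z D1 h11
    have hyp : Hyp (lv σ) (FF x y n σ) D0' Ph := by
      refine ⟨?_, ?_, ?_, ?_⟩
      · rw [← hB0.ctl, CTL_cons]
        exact fun hc => hct hc.1
      · intro D' hD' z D1' hz hc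
        obtain ⟨D, k, h8, h9, h10⟩ := hreach D' hD'
        obtain ⟨D1, h11, h12⟩ := h9.bwd hc
        obtain ⟨k1, h13, h14⟩ := h10.step hz h11
        rw [hPh D D' k h8 h9 h10, hPh D1 D1' k1 (h8.tail ⟨z, hz, h11⟩) h12 h14]
        exact h13
      · intro D' hD' hn'
        obtain ⟨D, k, h8, h9, _⟩ := hreach D' hD'
        obtain ⟨z, D1, hz, h11, hSh⟩ := hHs D h8 (fun h => hn' (h9.nil_iff.1 h))
        obtain ⟨D1', h12, _⟩ := h9.fwd h11
        exact ⟨z, D1', hz, h12, hSh⟩
      · intro D' hD' z D1' hc hz i j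
        exact ty_of_no_step ((hG' D' hD' z D1' hc).2.2 hz) i j
    obtain ⟨s', r', R', c1, c2, c3, c4, ⟨i, c5⟩, c6⟩ := find_star FF_nonlive l' D0' Ph hD0' hyp
    have hG2 : ∀ D, LR (lv σ) [s'] D → ∀ z D', Cf D z D' → Gd x y σ z := by
      intro D hD z D' hc
      rcases lr_cases hD with rfl | hD
      · exact hG' _ c6 z (D' ++ kstar s' r' :: R') ⟨D' ++ [kstar s' r'], Or.inl ⟨D', cf_single.1 hc, rfl⟩, by simp⟩
      · have h6 : LR (lv σ) D0' ((D ++ [kstar s' r']) ++ R') := by
          refine c6.trans ?_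
          exact LR.append (D := [kstar s' r']) (plr_star hD).to_reflTransGen R'
        exact hG' _ h6 z _ (cf_append_right (cf_append_right hc _) _)
    refine ⟨s', r', c1, ?_, ct_bind.2 c3, ?_, i, ty_bind.2 c5⟩
    · intro a W' hW'
      obtain ⟨z, w, v, h6, h7, _⟩ := st_bind.1 hW'
      have h8 := hG' _ c6 z (w ++ R') ⟨w, Or.inr h6, rfl⟩
      exact h8.2.2 (c2 z w h6) a v h7
    · intro D hD
      obtain ⟨D2, z, D1, v, h6, h7, h8, rfl⟩ := plr_inst_cases hD
      obtain ⟨_, g2, g3⟩ := hG2 D2 h6 z D1 h7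
      have hz : lv σ z := by
        by_contra hz
        obtain ⟨E, ⟨a, _, h9⟩, _⟩ := plr_iff.1 h8
        exact g3 hz a E (cf_single.1 h9)
      rw [CTL_append]
      exact ⟨g2 v h8, ctl_bind.2 (c4 D1 (TransGen.tail' h6 ⟨z, hz, h7⟩))⟩

end Axioms

end Pool.Agent.Helper501.Bpa

namespace Pool.Agent.Helper501.Bpa

open Relation Term

section Specific

variable {A : Type*} {n : ℕ}

theorem accOK_small {L M : Type*} {x y : M} {σ : L → Term M} {l : Term L} (h : size l ≤ n) : AccOK x y n σ l := by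
  intro D k j hD _ _ hT
  exact acc_list (small_lr hD (by simpa using small_of_size h)) hT

theorem accOK_one {p q : ℕ} (hpq : p ≠ q) {σ : A ⊕ ℕ → Term (A ⊕ ℕ)} (hσ : ∀ a, σ (Sum.inl a) = atom (Sum.inl a))
    {l : Term (A ⊕ ℕ)} (h : ∀ k k', Occ (Sum.inr k) l → Occ (Sum.inr k') l → k = k') :
    AccOK (Sum.inr p) (Sum.inr q) n σ l := by
  intro D k j hD hC hG _
  constructor
  rintro D' ⟨z, hz, hc⟩
  exfalso
  have hne : D ≠ [] := by rintro rfl; exact hc
  obtain ⟨⟨E, hE⟩, _, h3⟩ := hC hne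
  obtain ⟨z1, D1, v1, h4, h5, _⟩ := cf_bind.1 hE
  have hz1 : ∃ k1, z1 = Sum.inr k1 := by
    rcases z1 with a | k1
    · rw [hσ] at h5
      exact absurd h5.1 (by simp)
    · exact ⟨k1, rfl⟩
  have hz2 : ∃ k2, z = Sum.inr k2 := by
    rcases z with a | k2
    · exfalso
      have h6 : Cf (D.map (inst σ)) (Sum.inl a) ([] ++ D'.map (inst σ)) :=
        cf_bind.2 ⟨Sum.inl a, D', [], hc, by rw [hσ]; exact ⟨rfl, rfl⟩, rfl⟩
      rcases h3 _ _ h6 with h7 | h7
      · exact absurd h7 (by simp)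
      · exact absurd h7 (by simp)
    · exact ⟨k2, rfl⟩
  obtain ⟨k1, rfl⟩ := hz1
  obtain ⟨k2, rfl⟩ := hz2
  obtain rfl := h k1 k2 (occ_enabled hD h4) (occ_enabled hD hc)
  obtain ⟨_, hs, i, j, i', j', h6, h7, hne'⟩ := hz
  have e := out_unique (by simpa using hpq) (hG _ _ hc).2.1 h6 h7 h5
  rw [hs i j h6, hs i' j' h7] at e
  exact hne' (add_right_cancel e)

theorem compl_of_LB {L : Type*} {x y : L} {D D' : List (Term L)} (h : LB D D') (hc : Compl x y D) : Compl x y D' := by
  obtain ⟨⟨D1, h1⟩, ⟨D2, h2⟩, h3⟩ := hc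
  obtain ⟨E1, h4, _⟩ := h.fwd h1
  obtain ⟨E2, h5, _⟩ := h.fwd h2
  refine ⟨⟨E1, h4⟩, ⟨E2, h5⟩, fun a E hE => ?_⟩
  obtain ⟨E', h6, _⟩ := h.bwd hE
  exact h3 a E' h6

theorem W_of_LB {L : Type*} {x y : L} {t u : Term L} (h : LB [t] [u]) (hW : W x y t) : W x y u := by
  intro D hD hn
  obtain ⟨E, h1, h2⟩ := h.symm.plr hD
  exact compl_of_LB h2.symm (hW E h1 (fun h => hn (h2.nil_iff.2 h)))

theorem IL_of_LB {L : Type*} {t u : Term L} (h : LB [t] [u]) (hW : IL t) : IL u := by
  intro D hD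
  obtain ⟨E, h1, h2⟩ := h.symm.plr hD
  exact h2.ctl.2 (hW E h1)

/-- transfer of the invariant and of typing -/
def Tf {L : Type*} (x y : L) (n : ℕ) (t u : Term L) : Prop :=
  (W x y t → Inv x y n t → Inv x y n u) ∧
  (W x y t → IL t → ∀ i j : ZMod n, Ty (al L) (F0 x y) t i j → Ty (al L) (F0 x y) u i j)

theorem Tf.refl {L : Type*} {x y : L} (t : Term L) : Tf x y n t t := ⟨fun _ h => h, fun _ _ _ _ h => h⟩

theorem Tf.trans {L : Type*} {x y : L} {t u v : Term L} (hB : LB [t] [u]) (h1 : Tf x y n t u) (h2 : Tf x y n u v) :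
    Tf x y n t v :=
  ⟨fun hW h => h2.1 (W_of_LB hB hW) (h1.1 hW h),
    fun hW hI i j h => h2.2 (W_of_LB hB hW) (IL_of_LB hB hI) i j (h1.2 hW hI i j h)⟩

theorem Tf.plus {L : Type*} {x y : L} {s s' t t' : Term L} (h1 : Tf x y n s s') (h2 : Tf x y n t t') :
    Tf x y n (plus s t) (plus s' t') := by
  refine ⟨fun hW h => ?_, fun hW hI i j h => ?_⟩
  · rcases h with h | h
    · exact Or.inl (h1.1 hW.plus_left h)
    · exact Or.inr (h2.1 hW.plus_right h)
  · exact ⟨h1.2 hW.plus_left hI.plus_left i j h.1, h2.2 hW.plus_right hI.plus_right i j h.2⟩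

theorem Tf.seq {L : Type*} {x y : L} {s s' t t' : Term L} (hB : LB [s] [s']) (h1 : Tf x y n s s')
    (h2 : Tf x y n t t') : Tf x y n (seq s t) (seq s' t') := by
  refine ⟨fun hW h => ?_, fun hW hI i j h => ?_⟩
  · rcases h with h | ⟨hc, h⟩
    · exact Or.inl (h1.1 hW.seq_left h)
    · exact Or.inr ⟨hB.ct.1 hc, h2.1 (hW.seq_right hc) h⟩
  · obtain ⟨m, h3, h4⟩ := h
    exact ⟨m, h1.2 hW.seq_left hI.seq_left i m h3, fun hc =>
      h2.2 (hW.seq_right (hB.ct.2 hc)) (hI.seq_right (hB.ct.2 hc)) m j (h4 (hB.ct.2 hc))⟩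

theorem Tf.kstar {L : Type*} {x y : L} {s s' t t' : Term L} (hB : LB [s] [s']) (hB' : LB [t] [t'])
    (h1 : Tf x y n s s') (h2 : Tf x y n t t') : Tf x y n (kstar s t) (kstar s' t') := by
  refine ⟨fun hW h => ?_, fun hW hI i j h => ?_⟩
  · rcases h with h | h | ⟨h3, h4, h5, i, h6⟩
    · exact Or.inl (h1.1 hW.kstar_left h)
    · exact Or.inr (Or.inl (h2.1 hW.kstar_right h))
    · refine Or.inr (Or.inr ⟨?_, hB.ct.1 h4, IL_of_LB hB h5, i, h1.2 hW.kstar_left h5 i i h6⟩)
      intro a w hw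
      obtain ⟨D, h7, _⟩ := hB'.bwd (cf_single.2 hw)
      exact h3 a D (cf_single.1 h7)
  · exact ⟨h1.2 hW.kstar_left hI.kstar_left i i h.1, h2.2 hW.kstar_right hI.kstar_right i j h.2⟩

theorem inst_atom {L : Type*} (t : Term L) : inst atom t = t := by
  induction t with
  | atom a => rfl
  | dead => rfl
  | plus s t ihs iht => simp only [inst, ihs, iht]
  | seq s t ihs iht => simp only [inst, ihs, iht]
  | kstar s t ihs iht => simp only [inst, ihs, iht]

/-- the comb -/
def comb {L : Type*} (X Y : Term L) : ℕ → Term L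
  | 0 => plus X Y
  | k + 1 => plus X (seq Y (comb X Y k))

theorem comb_ty {x y : A} (k : ℕ) : Ty (al A) (F0 x y) (comb (atom x) (atom y) k) (-(k + 1 : ZMod n)) 0 := by
  induction k with
  | zero =>
    refine ⟨Or.inl ⟨rfl, rfl⟩, Or.inr ⟨rfl, ?_⟩⟩
    push_cast; ring
  | succ k ih =>
    refine ⟨Or.inl ⟨rfl, rfl⟩, ⟨-(k + 1 : ZMod n), Or.inr ⟨rfl, ?_⟩, fun _ => ih⟩⟩
    push_cast; ring

/-- no occurrence of the deadlock constant -/
def ND {L : Type*} : Term L → Prop
  | atom _ => True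
  | dead => False
  | plus s t => ND s ∧ ND t
  | seq s t => ND s ∧ ND t
  | kstar s t => ND s ∧ ND t

theorem ND.ct {L : Type*} {t : Term L} (h : ND t) : CT (al L) t := by
  induction t with
  | atom a => trivial
  | dead => exact h
  | plus s t ihs iht => exact Or.inl (ihs h.1)
  | seq s t ihs iht => exact ⟨ihs h.1, iht h.2⟩
  | kstar s t ihs iht => exact iht h.2

theorem ND.step {L : Type*} {t : Term L} (h : ND t) {a : L} {w : List (Term L)} (hw : St t a w) : ∀ u ∈ w, ND u := by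
  induction t generalizing w with
  | atom b => rw [hw.2]; simp
  | dead => exact absurd hw (by simp [St])
  | plus s t ihs iht =>
    rcases hw with hw | hw
    · exact ihs h.1 hw
    · exact iht h.2 hw
  | seq s t ihs iht =>
    obtain ⟨v, h1, rfl⟩ := hw
    intro u hu
    rw [List.mem_append, List.mem_singleton] at hu
    rcases hu with hu | rfl
    · exact ihs h.1 h1 u hu
    · exact h.2
  | kstar s t ihs iht =>
    rcases hw with ⟨v, h1, rfl⟩ | hw
    · intro u hu
      rw [List.mem_append, List.mem_singleton] at hu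
      rcases hu with hu | rfl
      · exact ihs h.1 h1 u hu
      · exact h
    · exact iht h.2 hw

theorem ND.il {L : Type*} {t : Term L} (h : ND t) : IL t := by
  have key : ∀ D, LR (al L) [t] D → ∀ u ∈ D, ND u := by
    intro D hD
    induction hD with
    | refl => simpa using h
    | @tail E E' _ h1 ih =>
      obtain ⟨a, _, h1⟩ := h1
      cases E with
      | nil => exact absurd h1 (by simp [Cf])
      | cons t R =>
        obtain ⟨w, h2, rfl⟩ := h1
        intro u hu
        rw [List.mem_append] at hu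
        rcases hu with hu | hu
        · exact (ih t (by simp)).step h2 u hu
        · exact ih u (by simp [hu])
  intro D hD u hu
  exact (key D hD.to_reflTransGen u hu).ct

theorem comb_nd {x y : A} (k : ℕ) : ND (comb (atom x) (atom y) k) := by
  induction k with
  | zero => exact ⟨trivial, trivial⟩
  | succ k ih => exact ⟨trivial, trivial, ih⟩

theorem inv_comb {x y : A} (hn : 2 ≤ n) : Inv x y n (kstar (comb (atom x) (atom y) (n - 1)) dead) := by
  refine Or.inr (Or.inr ⟨fun a w h => h, (comb_nd _).ct, (comb_nd _).il, 0, ?_⟩)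
  have h := comb_ty (n := n) (x := x) (y := y) (n - 1)
  have e : (-(((n - 1 : ℕ) : ZMod n) + 1)) = 0 := by
    have : (((n - 1 : ℕ) : ZMod n) + 1) = ((n - 1 + 1 : ℕ) : ZMod n) := by push_cast; ring
    rw [this, Nat.sub_add_cancel (by omega), ZMod.natCast_self, neg_zero]
  rwa [e] at h

theorem not_inv_P {x y : A} (hxy : x ≠ y) (hn : 2 ≤ n) : ¬ Inv x y n (kstar (plus (atom x) (atom y)) dead) := by
  rintro ((h | h) | h | ⟨_, _, _, i, h⟩)
  · exact h
  · exact h
  · exact h
  · have h1 := F0_y hxy h.2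
    haveI : Fact (1 < n) := ⟨by omega⟩
    have : i + 0 = i + 1 := by rw [add_zero]; exact h1
    exact zero_ne_one (add_left_cancel this)

theorem W_P {x y : A} : W x y (kstar (plus (atom x) (atom y)) dead) := by
  have hst : ∀ a w, St (kstar (plus (atom x) (atom y)) dead) a w ↔
      (a = x ∨ a = y) ∧ w = [kstar (plus (atom x) (atom y)) dead] := by
    intro a w
    constructor
    · rintro (⟨v, (⟨h1, rfl⟩ | ⟨h1, rfl⟩), rfl⟩ | h)
      · exact ⟨Or.inl h1, rfl⟩
      · exact ⟨Or.inr h1, rfl⟩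
      · exact absurd h (by simp [St])
    · rintro ⟨h | h, rfl⟩
      · exact Or.inl ⟨[], Or.inl ⟨h, rfl⟩, rfl⟩
      · exact Or.inl ⟨[], Or.inr ⟨h, rfl⟩, rfl⟩
  have key : ∀ D, LR (al A) [kstar (plus (atom x) (atom y)) dead] D → D = [kstar (plus (atom x) (atom y)) dead] := by
    intro D hD
    induction hD with
    | refl => rfl
    | tail _ h1 ih =>
      subst ih
      obtain ⟨a, _, h1⟩ := h1
      rw [cf_single, hst] at h1
      exact h1.2
  intro D hD _
  rw [key D hD.to_reflTransGen]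
  refine ⟨⟨_, cf_single.2 ((hst _ _).2 ⟨Or.inl rfl, rfl⟩)⟩, ⟨_, cf_single.2 ((hst _ _).2 ⟨Or.inr rfl, rfl⟩)⟩, ?_⟩
  intro a D' h
  exact ((hst _ _).1 (cf_single.1 h)).1

end Specific

end Pool.Agent.Helper501.Bpa
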